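import Pool.Agent.Q50.BL.Opr
import Pool.Agent.TH119.MX.Gal

/-!
# The polarisation of the total cohomology
-/

open CategoryTheory AlgebraicGeometry TensorProduct

universe u

namespace Pool.Agent.Q50.BL

open Module Polynomial
open Pool.Agent.H914 Pool.Agent.H914.VarClass Pool.Agent.H914.VarClass.Obj
  Pool.Agent.H914.WeilCohomology
open Pool.Agent.Y133.Half
open Pool.Agent.Y121

variable {k : Type u} [Field k] {𝒱 : VarClass k} {ops : CycleOps 𝒱}

/-- The complex numbers which are fixed by all automorphisms over a subfield. -/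
theorem fixed_mem {K : Type} [Field K] [Algebra K ℂ] (z : ℂ)
    (h : ∀ σ : ℂ ≃ₐ[K] ℂ, σ z = z) : ∃ r : K, algebraMap K ℂ r = z := by
  by_contra hn
  have h1 : z ∉ (algebraMap K ℂ).fieldRange := by
    rintro ⟨r, hr⟩
    exact hn ⟨r, hr⟩
  obtain ⟨σ, hσ, hz⟩ := Pool.Agent.TH119.MX.exists_move h1
  exact hz (h (AlgEquiv.ofRingEquiv (f := σ) fun r => hσ _ ⟨r, rfl⟩))

section AH

variable {T : AH.HodgeTheory ops} {X Y Z : 𝒱.Obj}

/-- The eigenvectors of the Hodge operator of a given degree. -/
lemma eig_mem {i : ℕ} {j : ℤ} {x : CH T X} (hx : x ∈ (T.W.gr X i).baseChange ℂ)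
    (h : hop T X x = (j : ℂ) • x) : (∃ a b : ℤ, a + b = i ∧ a - b = j ∧ x ∈ pqC T X a b) ∨ x = 0 := by
  classical
  set N : Module.End ℂ (CH T X) := AH.dia (pq_internal X) fun r =>
    if r.1 - r.2 = j then 0 else (((r.1 - r.2 - j : ℤ) : ℂ))⁻¹ with hN
  set E : Module.End ℂ (CH T X) := AH.dia (pq_internal X) fun r =>
    if r.1 - r.2 = j then 1 else 0 with hE
  have h3 : ∀ x : CH T X, N (hop T X x - (j : ℂ) • x) + E x = x := by
    intro x
    refine ch_ind (p := fun x : CH T X => N (hop T X x - (j : ℂ) • x) + E x = x) ?_ ?_ ?_ x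
    · intro _ a b _ x hx
      rw [hop_pq hx, ← sub_smul, map_smul, hN, hE,
        AH.dia_apply (pq_internal X) _ (i := (a, b)) hx,
        AH.dia_apply (pq_internal X) _ (i := (a, b)) hx]
      by_cases hab : a - b = j
      · subst hab
        simp
      · simp only [if_neg hab, zero_smul, add_zero]
        rw [smul_smul]
        have h5 : ((a - b : ℤ) : ℂ) - (j : ℂ) = ((a - b - j : ℤ) : ℂ) := by push_cast; ring
        rw [h5, mul_inv_cancel₀, one_smul]
        rw [Ne, Int.cast_eq_zero]; omega
    · intro x y hx hy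
      calc N (hop T X (x + y) - (j : ℂ) • (x + y)) + E (x + y) =
            (N (hop T X x - (j : ℂ) • x) + E x) + (N (hop T X y - (j : ℂ) • y) + E y) := by
              simp only [map_add, map_sub, smul_add, map_smul]; abel
        _ = x + y := by rw [hx, hy]
    · simp
  have h4 := h3 x
  rw [h, sub_self, map_zero, zero_add] at h4
  by_cases hp : ∃ a b : ℤ, a + b = i ∧ a - b = j
  · obtain ⟨a₀, b₀, h5, h6⟩ := hp
    left
    refine ⟨a₀, b₀, h5, h6, ?_⟩
    rw [← h4]
    refine gr_ind (p := fun x => E x ∈ pqC T X a₀ b₀) ?_ ?_ ?_ hx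
    · intro a b hr x hx
      rw [hE, AH.dia_apply (pq_internal X) _ (i := (a, b)) hx]
      by_cases hab : a - b = j
      · have h7 : a = a₀ := by omega
        have h8 : b = b₀ := by omega
        subst h7 h8
        simpa [hab] using hx
      · simp [hab]
    · intro x y hx hy; rw [map_add]; exact Submodule.add_mem _ hx hy
    · rw [map_zero]; exact Submodule.zero_mem _
  · right
    rw [← h4]
    refine gr_ind (p := fun x => E x = 0) ?_ ?_ ?_ hx
    · intro a b hr x hx
      rw [hE, AH.dia_apply (pq_internal X) _ (i := (a, b)) hx]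
      by_cases hab : a - b = j
      · exact absurd ⟨a, b, hr, hab⟩ hp
      · simp [hab]
    · intro x y hx hy; rw [map_add, hx, hy, add_zero]
    · rw [map_zero]

lemma gr_eq_zero {i : ℕ} (hi : 2 * X.dim < i) {x : CH T X}
    (hx : x ∈ (T.W.gr X i).baseChange ℂ) : x = 0 := by
  refine base_induction (P := fun x => x = 0) rfl ?_ ?_ hx
  · rintro x y rfl rfl; rw [add_zero]
  · intro z a ha
    rw [T.W.gr_eq_bot X i hi, Submodule.mem_bot] at ha
    rw [ha, tmul_zero]

/-- Components in complex cohomology. -/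
lemma sum_proj (x : CH T X) : x = ∑ i ∈ Finset.range (2 * X.dim + 1),
    (H914.proj (T.W.isInternal X) i).baseChange ℂ x := by
  refine ch_ind (p := fun x => x = ∑ i ∈ Finset.range (2 * X.dim + 1),
    (H914.proj (T.W.isInternal X) i).baseChange ℂ x) ?_ ?_ ?_ x
  · intro i a b hab x hx
    have h1 := pq_gr hab hx
    by_cases hi : i < 2 * X.dim + 1
    · rw [Finset.sum_eq_single i, proj_baseChange_same h1]
      · intro j _ hij; exact proj_baseChange_ne (Ne.symm hij) h1
      · intro h'; exact absurd (Finset.mem_range.2 hi) h'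
    · rw [gr_eq_zero (by omega) h1]; simp
  · intro x y hx hy
    simp only [map_add]
    rw [Finset.sum_add_distrib, ← hx, ← hy]
  · simp

lemma proj_baseChange_mem (i : ℕ) (x : CH T X) :
    (H914.proj (T.W.isInternal X) i).baseChange ℂ x ∈ (T.W.gr X i).baseChange ℂ := by
  induction x using TensorProduct.induction_on with
  | zero => rw [map_zero]; exact Submodule.zero_mem _
  | add x y hx hy => rw [map_add]; exact Submodule.add_mem _ hx hy
  | tmul z v =>
    rw [LinearMap.baseChange_tmul]
    exact Submodule.tmul_mem_baseChange_of_mem _ (proj_mem _ _ _)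

/-- The cohomology of every variety is a polarisable Hodge structure. -/
structure PolH (T : AH.HodgeTheory ops) (c : ℂ ≃ₐ[T.W.K] ℂ) : Prop where
  conj : ∀ (X : 𝒱.Obj) (a b : ℤ) (x : CH T X), x ∈ pqC T X a b →
    sg (T.W.H X) c x ∈ pqC T X b a
  pol : ∀ X : 𝒱.Obj, ∃ Q : LinearMap.BilinForm T.W.K (T.W.H X),
    (∀ (p q r s : ℤ) (x y : CH T X), x ∈ pqC T X p q → y ∈ pqC T X r s → (r, s) ≠ (q, p) →
      QC Q x y = 0) ∧
    ∀ (p q : ℤ) (x : CH T X), x ∈ pqC T X p q → x ≠ 0 →
      ∃ t : ℝ, 0 < t ∧ Complex.I ^ (p - q) * QC Q x (sg (T.W.H X) c x) = t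

/-- **The polarisation of the total cohomology.** -/
theorem exists_pol {c : ℂ ≃ₐ[T.W.K] ℂ} (hT : PolH T c) (X : 𝒱.Obj) :
    ∃ Q : LinearMap.BilinForm T.W.K (T.W.H X), IsPol c (hop T X) Q := by
  obtain ⟨Q, horth, hpos⟩ := hT.pol X
  refine ⟨Q, ?_, ?_, ?_⟩
  · intro x y
    refine ch_ind (p := fun x => QC Q (hop T X x) y + QC Q x (hop T X y) = 0) ?_ ?_ ?_ x
    · intro i a b hab x hx
      refine ch_ind (p := fun y => QC Q (hop T X x) y + QC Q x (hop T X y) = 0) ?_ ?_ ?_ y
      · intro j c d hcd y hy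
        rw [hop_pq hx, hop_pq hy, map_smul, map_smul, LinearMap.smul_apply, ← add_smul]
        by_cases h0 : (a - b : ℤ) + (c - d) = 0
        · have h1 : ((a - b : ℤ) : ℂ) + ((c - d : ℤ) : ℂ) = 0 := by exact_mod_cast h0
          rw [h1, zero_smul]
        · have h1 : QC Q x y = 0 := by
            refine horth a b c d x y hx hy fun h => h0 ?_
            obtain ⟨rfl, rfl⟩ := Prod.mk.inj h
            ring
          rw [h1, smul_zero]
      · intro y z hy hz
        have e : QC Q (hop T X x) (y + z) + QC Q x (hop T X (y + z)) =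
            (QC Q (hop T X x) y + QC Q x (hop T X y)) +
            (QC Q (hop T X x) z + QC Q x (hop T X z)) := by
          rw [map_add, map_add, map_add]; ring
        rw [e, hy, hz, add_zero]
      · rw [map_zero, map_zero, map_zero, add_zero]
    · intro x z hx hz
      have e : QC Q (hop T X (x + z)) y + QC Q (x + z) (hop T X y) =
          (QC Q (hop T X x) y + QC Q x (hop T X y)) +
          (QC Q (hop T X z) y + QC Q z (hop T X y)) := by
        rw [map_add, map_add, map_add, LinearMap.add_apply, LinearMap.add_apply]; ring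
      rw [e, hx, hz, add_zero]
    · rw [map_zero, map_zero, LinearMap.zero_apply, LinearMap.zero_apply, add_zero]
  · intro x
    refine ch_ind (p := fun x => hop T X (sg (T.W.H X) c x) =
      - sg (T.W.H X) c (hop T X x)) ?_ ?_ ?_ x
    · intro i a b hab x hx
      rw [hop_pq hx, hop_pq (hT.conj X a b x hx), sg_smul, map_intCast, ← neg_smul]
      congr 1
      push_cast
      ring
    · intro x y hx hy; rw [map_add, map_add, hx, hy, map_add, map_add, neg_add]
    · rw [map_zero, map_zero, map_zero, neg_zero]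
  · intro j x hx hne
    set π : ℕ → CH T X := fun i => (H914.proj (T.W.isInternal X) i).baseChange ℂ x with hπ
    have hmem : ∀ i : ℕ, (∃ a b : ℤ, a + b = i ∧ a - b = j ∧ π i ∈ pqC T X a b) ∨ π i = 0 := by
      intro i
      refine eig_mem (proj_baseChange_mem i x) ?_
      have h3 := hop_proj i x
      rw [hx, map_smul] at h3
      exact h3
    have h1 : ∀ i, ∃ r : ℝ, 0 ≤ r ∧ (π i ≠ 0 → 0 < r) ∧
        Complex.I ^ j * QC Q (π i) (sg (T.W.H X) c (π i)) = r := by
      intro i
      rcases hmem i with ⟨a, b, hab, hj, h4⟩ | h4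
      · by_cases h0 : π i = 0
        · exact ⟨0, le_rfl, fun h' => absurd h0 h', by rw [h0, map_zero, map_zero]; simp⟩
        · obtain ⟨r, hr, h5⟩ := hpos a b _ h4 h0
          rw [hj] at h5
          exact ⟨r, hr.le, fun _ => hr, h5⟩
      · exact ⟨0, le_rfl, fun h' => absurd h4 h', by rw [h4, map_zero, map_zero]; simp⟩
    choose r hr0 hr1 hr2 using h1
    have h2 : ∀ i k, i ≠ k → QC Q (π i) (sg (T.W.H X) c (π k)) = 0 := by
      intro i k hik
      rcases hmem i with ⟨a, b, hab, hj, h4⟩ | h4
      · rcases hmem k with ⟨a', b', hab', hj', h4'⟩ | h4'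
        · refine horth a b b' a' _ _ h4 (hT.conj X a' b' _ h4') fun h => hik ?_
          obtain ⟨rfl, rfl⟩ := Prod.mk.inj h
          have := hab.symm.trans hab'
          exact_mod_cast this
        · rw [h4', map_zero, map_zero]
      · rw [h4, map_zero, LinearMap.zero_apply]
    have hx' : x = ∑ i ∈ Finset.range (2 * X.dim + 1), π i := sum_proj x
    refine ⟨∑ i ∈ Finset.range (2 * X.dim + 1), r i, ?_, ?_⟩
    · obtain ⟨i, hi, hix⟩ : ∃ i ∈ Finset.range (2 * X.dim + 1), π i ≠ 0 := by
        by_contra hn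
        push Not at hn
        exact hne (hx'.trans (Finset.sum_eq_zero hn))
      exact Finset.sum_pos' (fun i _ => hr0 i) ⟨i, hi, hr1 i hix⟩
    · have h6 : QC Q x (sg (T.W.H X) c x) = ∑ i ∈ Finset.range (2 * X.dim + 1),
          QC Q (π i) (sg (T.W.H X) c (π i)) := by
        conv_lhs => rw [hx', map_sum, LinearMap.sum_apply]
        refine Finset.sum_congr rfl fun i hi => ?_
        rw [map_sum, map_sum]
        refine Finset.sum_eq_single i (fun k _ hk => h2 i k (Ne.symm hk)) fun h' => absurd hi h'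
      rw [h6, Complex.ofReal_sum, Finset.mul_sum]
      exact Finset.sum_congr rfl fun i _ => hr2 i

end AH

end Pool.Agent.Q50.BL
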