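import Pool.Agent.Q50.BL.BDefs
import Pool.Agent.Q50.BL.PolX

/-!
# Polarisable Hodge theories: comparison of the definitions
-/

open CategoryTheory AlgebraicGeometry TensorProduct

universe u

namespace Pool.Agent.Q50.BL

open Module
open Pool.Agent.H914 Pool.Agent.H914.VarClass Pool.Agent.H914.VarClass.Obj
  Pool.Agent.H914.WeilCohomology
open Pool.Agent.Y121
open Pool.Agent.Q60.HDS (PolHodgeTheory)

variable {k : Type u} [Field k] {𝒱 : VarClass k} {ops : CycleOps 𝒱}

/-- The complex conjugation, as an automorphism over a field of rational numbers. -/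
noncomputable def cnjK (K : Type) [Field K] [Algebra K ℂ] (hK : ∀ r : K, ∃ q : ℚ, (q : K) = r) :
    ℂ ≃ₐ[K] ℂ :=
  AlgEquiv.ofRingEquiv (f := Complex.conjAe.toRingEquiv) fun r => by
    obtain ⟨q, rfl⟩ := hK r
    rw [map_ratCast, map_ratCast]

lemma cnjK_apply {K : Type} [Field K] [Algebra K ℂ] (hK : ∀ r : K, ∃ q : ℚ, (q : K) = r) (z : ℂ) :
    cnjK K hK z = starRingEnd ℂ z := rfl

section Form

variable {K A : Type} [Field K] [Algebra K ℂ] [Ring A] [Algebra K A]

/-- The bilinear form `tr (φ x · y)`. -/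
noncomputable def formQ (tr : A →ₗ[K] K) (φ : A →ₗ[K] A) : LinearMap.BilinForm K A :=
  ((LinearMap.mul K A).compr₂ tr) ∘ₗ φ

omit [Algebra K ℂ] in
lemma formQ_apply (tr : A →ₗ[K] K) (φ : A →ₗ[K] A) (x y : A) : formQ tr φ x y = tr (φ x * y) := rfl

lemma QC_formQ (tr : A →ₗ[K] K) (φ : A →ₗ[K] A) (x y : ℂ ⊗[K] A) :
    QC (formQ tr φ) x y = AHS.extForm K ℂ tr (AHS.extMul K ℂ (AHS.extMap K ℂ φ x) y) := by
  change _ = TensorProduct.AlgebraTensorModule.rid K ℂ ℂ (tr.baseChange ℂ (φ.baseChange ℂ x * y))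
  induction x using TensorProduct.induction_on with
  | zero => simp
  | add x x' hx hx' =>
    rw [map_add, LinearMap.add_apply, hx, hx', map_add, add_mul, map_add, map_add]
  | tmul z v =>
    induction y using TensorProduct.induction_on with
    | zero => simp
    | add y y' hy hy' =>
      rw [map_add, hy, hy', mul_add, map_add, map_add]
    | tmul w v' =>
      rw [QC_tmul, LinearMap.baseChange_tmul, Algebra.TensorProduct.tmul_mul_tmul,
        LinearMap.baseChange_tmul, TensorProduct.AlgebraTensorModule.rid_tmul, formQ_apply,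
        Algebra.smul_def]

end Form

lemma sum_tmul_eq {K V : Type} [Field K] [Algebra K ℂ] [AddCommGroup V] [Module K V]
    [Module.Finite K V] (x : ℂ ⊗[K] V) : ∃ (m : ℕ) (l : Fin m → ℂ) (c : Fin m → V),
      x = ∑ i, l i • ((1 : ℂ) ⊗ₜ[K] c i) := by
  let b := Module.finBasis K V
  refine ⟨_, fun i => (b.baseChange ℂ).repr x i, fun i => b i, ?_⟩
  conv_lhs => rw [← (b.baseChange ℂ).sum_repr x]
  exact Finset.sum_congr rfl fun i _ => by rw [Basis.baseChange_apply]

lemma isConj_sg {W : WeilCohomology.{u, 0} ops} [Algebra W.K ℂ]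
    (hK : ∀ r : W.K, ∃ q : ℚ, (q : W.K) = r) {X : 𝒱.Obj} (x : ℂ ⊗[W.K] W.H X) :
    Pool.Agent.Q60.HDS.IsConj (W := W) (X := X) x (sg (W.H X) (cnjK W.K hK) x) := by
  obtain ⟨m, l, c, hx⟩ := sum_tmul_eq x
  refine ⟨m, l, c, hx, ?_⟩
  have h1 : sg (W.H X) (cnjK W.K hK) x = ∑ i, starRingEnd ℂ (l i) • ((1 : ℂ) ⊗ₜ[W.K] c i) := by
    rw [hx, map_sum]
    refine Finset.sum_congr rfl fun i _ => ?_
    rw [sg_smul, sg_tmul, map_one, cnjK_apply]
  exact h1

/-- The conversion of the hypothesis. -/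
theorem polH (T : PolHodgeTheory ops) : PolH (AHS.toH T.toHodgeTheory)
    (cnjK (AHS.toH T.toHodgeTheory).W.K T.rat) where
  conj X a b x hx := T.conj X a b x _ (isConj_sg (W := T.W) T.rat x) hx
  pol X := by
    obtain ⟨φ, h1, h2⟩ := T.pol X
    refine ⟨(formQ (K := T.W.K) (A := T.W.H X) (T.W.tr X) φ : LinearMap.BilinForm T.W.K (T.W.H X)),
      fun p q r s x y hx hy hne => ?_, fun p q x hx hne => ?_⟩
    · have e := QC_formQ (K := T.W.K) (T.W.tr X) φ x y
      exact e.trans (h1 p q r s x y hx hy hne)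
    · obtain ⟨t, ht, h3⟩ := h2 p q x _ hx (isConj_sg (W := T.W) T.rat x) hne
      refine ⟨t, ht, Eq.trans ?_ h3⟩
      have e := QC_formQ (K := T.W.K) (A := T.W.H X) (T.W.tr X) φ x (sg (T.W.H X) (cnjK T.W.K T.rat) x)
      exact congrArg (fun z => Complex.I ^ (p - q) * z) e

end Pool.Agent.Q50.BL
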