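import Pool.Agent.Q50.BL.Fac
import Pool.Agent.Q50.BL.Conv2
import Pool.Agent.Q60.HDS.Main

/-!
# The Hodge conjecture for the products of a variety of bounded level and the powers of a variety
-/

open CategoryTheory AlgebraicGeometry TensorProduct

universe u

namespace Pool.Agent.Q50.BL

open Module Polynomial
open Pool.Agent.H914 Pool.Agent.H914.VarClass Pool.Agent.H914.VarClass.Obj
  Pool.Agent.H914.WeilCohomology
open Pool.Agent.H281R3.HT (algSpan)
open Pool.Agent.Y133.Half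
open Pool.Agent.Y121

variable {k : Type u} [Field k] {𝒱 : VarClass k} {ops : CycleOps 𝒱}

section AH

variable {T : AH.HodgeTheory ops} {X Y Z : 𝒱.Obj} {l : ℕ}

/-- All Hodge classes on `X` are algebraic. -/
def Full (T : AH.HodgeTheory ops) (X : 𝒱.Obj) : Prop := (AH.hodgeSys T).C X = algSpan T.W X

lemma full_iff : Full T X ↔ ∀ j c, AH.IsHodge T X j c → c ∈ spanCycles T.W X j :=
  ClassPred.sp_eq_iff (Q := AH.hodgePred T) X

lemma Full.mem (h : Full T X) {c : T.W.H X} (hc : c ∈ (AH.hodgeSys T).C X) :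
    c ∈ (algSys T.W).C X := by
  have h1 : (AH.hodgeSys T).C X = algSpan T.W X := h
  rw [h1] at hc
  exact hc

lemma full_of (h : ∀ c ∈ (AH.hodgeSys T).C X, c ∈ (algSys T.W).C X) : Full T X :=
  le_antisymm h (ClassPred.alg_le (Q := AH.hodgePred T))

/-- Retracts. -/
lemma Full.retract (h : Full T Y) (s : X ⟶ Y) (q : Y ⟶ X) (hsq : s ≫ q = 𝟙 X) : Full T X := by
  refine full_of fun c hc => ?_
  have h1 := h.mem ((AH.hodgeSys T).map q hc)
  have h2 := (algSys T.W).map s h1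
  rwa [← T.W.map_comp, hsq, T.W.map_id] at h2

/-- There is an algebraic class of degree one. -/
lemma exists_tr_alg (T : AH.HodgeTheory ops) (Z : 𝒱.Obj) [Nontrivial (T.W.H Z)] :
    ∃ t ∈ (algSys T.W).C Z, T.W.tr Z t = 1 := by
  obtain ⟨E, hE⟩ := T.dec.polar Z
  have h1 : (1 : T.W.H Z) ∈ T.W.gr Z (2 * 0) := T.W.one_mem Z
  have h2 : AH.IsHodge T Z 0 (1 : T.W.H Z) := by
    rw [← T.W.cl_fund Z]; exact AH.IsHodge.cl Z.V.fundCycle_mem
  have h3 : T.W.cl Z E ^ (Z.dim - 2 * 0 + 1) * (1 : T.W.H Z) = 0 := by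
    have h4 := ((AH.IsHodge.cl (T := T) hE.1).pow (Z.dim - 2 * 0 + 1)).1
    rw [T.W.gr_eq_bot Z _ (by omega)] at h4
    rw [(Submodule.mem_bot _).1 h4, zero_mul]
  obtain ⟨r, hr, h4⟩ := hE.2.2 0 (by omega) 1 h1 h2.2 h3 one_ne_zero
  have h6 : ∀ n, T.W.cl Z E ^ n ∈ (algSys T.W).C Z := by
    intro n
    induction n with
    | zero => rw [pow_zero]; exact (algSys T.W).one Z
    | succ n ih => rw [pow_succ]; exact (algSys T.W).mul ih (Pool.Agent.W536.RR.cl_mem_algSpan hE.1)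
  have h5 : T.W.cl Z E ^ (Z.dim - 2 * 0) * 1 * 1 ∈ (algSys T.W).C Z := by
    rw [mul_one, mul_one]
    exact h6 _
  rw [pow_zero, one_mul] at h4
  have hr0 : (r : T.W.K) ≠ 0 := by exact_mod_cast hr.ne'
  refine ⟨(r : T.W.K)⁻¹ • _, Submodule.smul_mem _ _ h5, ?_⟩
  rw [map_smul, h4, smul_eq_mul, inv_mul_cancel₀ hr0]

lemma Full.of_prod [Nontrivial (T.W.H Z)] (h : Full T (Z.prod Y)) : Full T Y := by
  obtain ⟨t, ht, ht1⟩ := exists_tr_alg T Z
  refine full_of fun c hc => ?_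
  have h1 := h.mem ((AH.hodgeSys T).map (snd Z Y) hc)
  have h2 := (algSys T.W).push (snd Z Y)
    ((algSys T.W).mul ((algSys T.W).map (fst Z Y) ht) h1)
  rwa [T.W.push_snd, ht1, one_smul] at h2

lemma full_trivial [Subsingleton (T.W.H Z)] : Full T (Z.prod Y) := by
  have h1 : finrank T.W.K (T.W.H (Z.prod Y)) = 0 := by
    rw [Pool.Agent.Y133.Half.finrank_prod, Module.finrank_zero_of_subsingleton, zero_mul]
  have h2 : Subsingleton (T.W.H (Z.prod Y)) := Module.finrank_zero_iff.1 h1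
  refine full_of fun c _ => ?_
  rw [Subsingleton.elim c 0]
  exact Submodule.zero_mem _

/-- The section of the projection of a power. -/
lemma exists_pw_section (X : 𝒱.Obj) : ∀ n, ∃ s : pw X n ⟶ pw X (n + 1), s ≫ fst (pw X n) X = 𝟙 _
  | 0 => ⟨Obj.lift (𝟙 X) (𝟙 X), Obj.lift_fst _ _⟩
  | n + 1 => ⟨Obj.lift (𝟙 _) (snd (pw X n) X), Obj.lift_fst _ _⟩

lemma Full.retract_prod {P Q : 𝒱.Obj} (h : Full T (Z.prod Q)) (s : P ⟶ Q) (q : Q ⟶ P)
    (hs : s ≫ q = 𝟙 P) : Full T (Z.prod P) := by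
  refine h.retract (Obj.lift (fst Z P) (snd Z P ≫ s)) (Obj.lift (fst Z Q) (snd Z Q ≫ q)) ?_
  apply prod_hom_ext
  · rw [Category.assoc, Obj.lift_fst, Obj.lift_fst, Category.id_comp]
  · rw [Category.assoc, Obj.lift_snd, ← Category.assoc, Obj.lift_snd, Category.assoc, hs,
      Category.comp_id, Category.id_comp]

lemma Full.pw_succ {n : ℕ} (h : Full T (Z.prod (pw X (n + 1)))) : Full T (Z.prod (pw X n)) := by
  obtain ⟨s, hs⟩ := exists_pw_section X n
  exact h.retract_prod s (fst (pw X n) X) hs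

lemma Full.pw_le {m n : ℕ} (hmn : m ≤ n) (h : Full T (Z.prod (pw X n))) :
    Full T (Z.prod (pw X m)) := by
  induction n, hmn using Nat.le_induction with
  | base => exact h
  | succ n _ ih => exact ih h.pw_succ

lemma Full.pw_prod (h : ∀ n, Full T (pw X n)) (m n : ℕ) : Full T ((pw X m).prod (pw X n)) :=
  (h (m + n + 1)).retract (pwAdd X m n).hom (pwAdd X m n).inv (pwAdd X m n).hom_inv_id

lemma Full.op (h : Full T (X.prod Y)) {f : T.W.H X →ₗ[T.W.K] T.W.H Y}
    (hf : f ∈ (AH.hodgeSys T).Op X Y) : f ∈ (algSys T.W).Op X Y := by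
  obtain ⟨c, hc, rfl⟩ := Sys.mem_Op.1 hf
  exact Sys.Op.corr (h.mem hc)

lemma Full.pw_le' {m n : ℕ} (hmn : m ≤ n) (h : Full T (pw X n)) : Full T (pw X m) := by
  induction n, hmn using Nat.le_induction with
  | base => exact h
  | succ n _ ih =>
    obtain ⟨s, hs⟩ := exists_pw_section X n
    exact ih (h.retract s (fst (pw X n) X) hs)

/-- **The Hodge conjecture for `Z × X^n`, `Z` of bounded level.** -/
theorem full_of_factor {M : Finset ℕ} (hM : ∀ Z : 𝒱.Obj, Lev T Z l → ∀ n,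
      ∀ u ∈ (AH.hodgeSys T).Op Z (pw X n),
        ∃ (β : Type) (_ : Fintype β) (m : β → ℕ)
          (G : ∀ b, T.W.H (pw X (m b)) →ₗ[T.W.K] T.W.H (pw X n))
          (w : ∀ b, T.W.H Z →ₗ[T.W.K] T.W.H (pw X (m b))),
          (∀ b, m b ∈ M) ∧ (∀ b, G b ∈ (AH.hodgeSys T).Op (pw X (m b)) (pw X n)) ∧
          (∀ b, w b ∈ (AH.hodgeSys T).Op Z (pw X (m b))) ∧ u = ∑ b, G b ∘ₗ w b)
    (hall : ∀ n, Full T (pw X n)) {N : ℕ} (hN : ∀ m ∈ M, m ≤ N) (hZ : Lev T Z l)
    (h : Full T (Z.prod (pw X N))) (n : ℕ) : Full T (Z.prod (pw X n)) := by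
  refine full_of fun c hc => ?_
  obtain ⟨β, _, m, G, w, h1, h2, h3, h4⟩ := hM Z hZ n (T.W.corr c) (Sys.Op.corr hc)
  have h5 : T.W.corr c ∈ (algSys T.W).Op Z (pw X n) := by
    rw [h4]
    refine Submodule.sum_mem _ fun b _ => ?_
    exact Sys.Op.comp ((Full.pw_prod hall _ _).op (h2 b)) ((h.pw_le (hN _ (h1 b))).op (h3 b))
  obtain ⟨c', hc', h6⟩ := Sys.mem_Op.1 h5
  have h7 : c' = c := (corrL_bijective T.W Z (pw X n)).1 h6
  rw [← h7]
  exact hc'

lemma lev_iff : Lev T Z l ↔ ∀ (p q : ℤ) (x : CH T Z), (l : ℤ) < |p - q| → x ∈ pqC T Z p q →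
    x = 0 := by
  constructor
  · intro h p q x hpq hx
    rw [h p q hpq] at hx
    exact (Submodule.mem_bot ℂ).1 hx
  · intro h p q hpq
    exact (Submodule.eq_bot_iff _).2 fun x hx => h p q x hpq hx

end AH

section Cmp

variable {W : WeilCohomology.{u, 0} ops} {X Y Z : 𝒱.Obj}

lemma cmp_add_left (c c' : W.H (X.prod Y)) (d : W.H (Y.prod Z)) :
    compose W X Y Z (c + c') d = compose W X Y Z c d + compose W X Y Z c' d := by
  rw [compose, pullPush, map_add, add_mul, map_add]; rfl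

lemma cmp_add_right (c : W.H (X.prod Y)) (d d' : W.H (Y.prod Z)) :
    compose W X Y Z c (d + d') = compose W X Y Z c d + compose W X Y Z c d' := by
  rw [compose, pullPush, map_add, mul_add, map_add]; rfl

lemma cmp_zero_left (d : W.H (Y.prod Z)) : compose W X Y Z 0 d = 0 := by
  rw [compose, pullPush, map_zero, zero_mul, map_zero]

lemma cmp_zero_right (c : W.H (X.prod Y)) : compose W X Y Z c 0 = 0 := by
  rw [compose, pullPush, map_zero, mul_zero, map_zero]

end Cmp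

section AHS

variable {T : AHS.HodgeTheory ops}

lemma cmp_mem_span {X Y Z : 𝒱.Obj} {c : T.W.H (X.prod Y)} {d : T.W.H (Y.prod Z)}
    (hc : c ∈ (AH.hodgeSys (AHS.toH T)).C (X.prod Y))
    (hd : d ∈ (AH.hodgeSys (AHS.toH T)).C (Y.prod Z)) :
    compose T.W X Y Z c d ∈ Submodule.span T.W.K (Composites T X Y Z) := by
  refine ClassPred.sp_ind (Q := AH.hodgePred (AHS.toH T))
    (q := fun c => compose T.W X Y Z c d ∈ Submodule.span T.W.K (Composites T X Y Z)) ?_ ?_ ?_ hc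
  · intro i c hc
    refine ClassPred.sp_ind (Q := AH.hodgePred (AHS.toH T))
      (q := fun d => compose T.W X Y Z c d ∈ Submodule.span T.W.K (Composites T X Y Z))
      ?_ ?_ ?_ hd
    · intro j d hd
      exact Submodule.subset_span ⟨i, j, c, d, hc, hd, rfl⟩
    · have e : compose T.W X Y Z c 0 = 0 := cmp_zero_right (W := T.W) c
      exact e ▸ Submodule.zero_mem _
    · intro a b ha hb
      have e : compose T.W X Y Z c (a + b) = compose T.W X Y Z c a + compose T.W X Y Z c b :=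
        cmp_add_right (W := T.W) c a b
      exact e ▸ Submodule.add_mem _ ha hb
  · have e : compose T.W X Y Z 0 d = 0 := cmp_zero_left (W := T.W) d
    exact e ▸ Submodule.zero_mem _
  · intro a b ha hb
    have e : compose T.W X Y Z (a + b) d = compose T.W X Y Z a d + compose T.W X Y Z b d :=
      cmp_add_left (W := T.W) a b d
    exact e ▸ Submodule.add_mem _ ha hb

lemma lev_of {Z : 𝒱.Obj} {l : ℕ} (hZ : LevelLE T Z l) : Lev (AHS.toH T) Z l := by
  exact lev_iff.2 hZ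

end AHS

open Pool.Agent.Q60.HDS (PolHodgeTheory HodgeConjectureFor totalBetti power)

variable (T : PolHodgeTheory ops)

/-- The Hodge level is at most the dimension. -/
lemma levelLE_of_dim {Z : 𝒱.Obj} {l : ℕ} (h : Z.dim ≤ l) : LevelLE T.toHodgeTheory Z l := by
  intro p q x hpq hx
  by_contra h0
  obtain ⟨h1, h2, h3, h4⟩ := T.range Z p q x hx h0
  rw [lt_abs] at hpq
  omega

lemma hc_iff {Y : 𝒱.Obj} : HodgeConjectureFor T.toHodgeTheory Y ↔
    Full (AHS.toH T.toHodgeTheory) Y := (full_iff (T := AHS.toH T.toHodgeTheory)).symm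

lemma factor_pw {X : 𝒱.Obj} {l : ℕ} {M : Finset ℕ}
    (h : ∀ Z : 𝒱.Obj, Lev (AHS.toH T.toHodgeTheory) Z l → ∀ n,
      ∀ u ∈ (AH.hodgeSys (AHS.toH T.toHodgeTheory)).Op Z (pw X n),
        ∃ (β : Type) (_ : Fintype β) (m : β → ℕ)
          (G : ∀ b, (AHS.toH T.toHodgeTheory).W.H (pw X (m b)) →ₗ[(AHS.toH T.toHodgeTheory).W.K]
            (AHS.toH T.toHodgeTheory).W.H (pw X n))
          (w : ∀ b, (AHS.toH T.toHodgeTheory).W.H Z →ₗ[(AHS.toH T.toHodgeTheory).W.K]
            (AHS.toH T.toHodgeTheory).W.H (pw X (m b))),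
          (∀ b, m b ∈ M) ∧
          (∀ b, G b ∈ (AH.hodgeSys (AHS.toH T.toHodgeTheory)).Op (pw X (m b)) (pw X n)) ∧
          (∀ b, w b ∈ (AH.hodgeSys (AHS.toH T.toHodgeTheory)).Op Z (pw X (m b))) ∧
          u = ∑ b, G b ∘ₗ w b)
    {Z : 𝒱.Obj} (hZ : LevelLE T.toHodgeTheory Z l) (n j : ℕ) (c : T.W.H (Z.prod (pw X n)))
    (hc : AHS.IsHodge T.toHodgeTheory (Z.prod (pw X n)) j c) :
    c ∈ Submodule.span T.W.K (⋃ m ∈ M, Composites T.toHodgeTheory Z (pw X m) (pw X n)) := by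
  have hc' : c ∈ (AH.hodgeSys (AHS.toH T.toHodgeTheory)).C (Z.prod (pw X n)) :=
    ClassPred.sp_of (Q := AH.hodgePred (AHS.toH T.toHodgeTheory)) (j := j) hc
  obtain ⟨β, _, m, G, w, h1, h2, h3, h4⟩ := h Z (lev_of hZ) n (T.W.corr c) (Sys.Op.corr hc')
  have h5 : ∀ b, ∃ d ∈ (AH.hodgeSys (AHS.toH T.toHodgeTheory)).C ((pw X (m b)).prod (pw X n)),
      (AHS.toH T.toHodgeTheory).W.corr d = G b := fun b => Sys.mem_Op.1 (h2 b)
  have h6 : ∀ b, ∃ d ∈ (AH.hodgeSys (AHS.toH T.toHodgeTheory)).C (Z.prod (pw X (m b))),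
      (AHS.toH T.toHodgeTheory).W.corr d = w b := fun b => Sys.mem_Op.1 (h3 b)
  choose d hd hd' using h5
  choose e he he' using h6
  have h7 : c = ∑ b, compose T.W Z (pw X (m b)) (pw X n) (e b) (d b) := by
    apply (corrL_bijective T.W Z (pw X n)).1
    rw [map_sum]
    refine (Eq.trans ?_ (h4.trans (Finset.sum_congr rfl fun b _ => ?_)))
    · rfl
    · rw [← hd' b, ← he' b]
      exact (corr_comp' (W := T.W) (e b)
        ((AH.hodgeSys (AHS.toH T.toHodgeTheory)).even (hd b))).symm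
  rw [h7]
  refine Submodule.sum_mem _ fun b _ => ?_
  refine Submodule.span_mono ?_ (cmp_mem_span (he b) (hd b))
  exact Set.subset_biUnion_of_mem
    (u := fun m => Composites T.toHodgeTheory Z (pw X m) (pw X n)) (h1 b)

/-- **Uniform reduction of the Hodge conjecture for the products `Z × X^n`.** -/
theorem bounded_level (X : 𝒱.Obj) (l : ℕ) :
    ∃ M : Finset ℕ, M.card ≤ (2 * l + 1) ^ (totalBetti T.toHodgeTheory X ^ 2) ∧
      (∀ Z : 𝒱.Obj, LevelLE T.toHodgeTheory Z l → FactorThrough T.toHodgeTheory M Z X) ∧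
      ∀ N : ℕ, (∀ m ∈ M, m ≤ N) →
        (2 * totalBetti T.toHodgeTheory X) ^ (3 * totalBetti T.toHodgeTheory X ^ 2) ≤ N →
        ∀ Z : 𝒱.Obj, LevelLE T.toHodgeTheory Z l →
          HodgeConjectureFor T.toHodgeTheory (Z.prod (power X N)) →
            HodgeConjectureForProducts T.toHodgeTheory Z X := by
  classical
  obtain ⟨M, hM, h⟩ := exists_factor (polH T) X l
  refine ⟨M.image fun m => m + 1, Finset.card_image_le.trans hM, ?_, ?_⟩
  · intro Z hZ n j c hc
    refine Submodule.span_mono ?_ (factor_pw T h hZ (n - 1) j c hc)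
    intro x hx
    obtain ⟨m, hm, hx⟩ := Set.mem_iUnion₂.1 hx
    exact Set.mem_iUnion₂.2 ⟨m + 1, Finset.mem_image_of_mem _ hm, hx⟩
  · intro N hN hN0 Z hZ hZN n
    refine hc_iff T |>.2 ?_
    have hZN' : Full (AHS.toH T.toHodgeTheory) (Z.prod (pw X (N - 1))) := (hc_iff T).1 hZN
    rcases subsingleton_or_nontrivial ((AHS.toH T.toHodgeTheory).W.H Z) with hs | hs
    · exact full_trivial
    · have h1 : Full (AHS.toH T.toHodgeTheory) (pw X (N - 1)) := hZN'.of_prod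
      have h2 : Full (AHS.toH T.toHodgeTheory) (pw X ((2 * totalBetti T.toHodgeTheory X) ^
          (3 * totalBetti T.toHodgeTheory X ^ 2) - 1)) := h1.pw_le' (by omega)
      have h3 : ∀ n, Full (AHS.toH T.toHodgeTheory) (pw X n) := fun n =>
        (hc_iff T).1 (Pool.Agent.Q60.HDS.determination (T := T) (X := X) ((hc_iff T).2 h2) (n + 1))
      refine full_of_factor h h3 (N := N - 1) (fun m hm => ?_) (lev_of hZ) hZN' (n - 1)
      have := hN (m + 1) (Finset.mem_image_of_mem _ hm)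
      omega

end Pool.Agent.Q50.BL
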