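import Pool.Agent.Q50.BL.Semi

/-!
# Polarized rational Hodge structures: complements, sections and retractions

A Hodge structure on the rational space `V` is given by the operator `h` on `ℂ ⊗ V` (which is
the multiplication by `p - q` on the vectors of type `(p, q)`).
-/

namespace Pool.Agent.Q50.BL

open TensorProduct Polynomial Module

variable {K : Type*} [Field K] [Algebra K ℂ]

section One

variable {V : Type*} [AddCommGroup V] [Module K V] {c : ℂ ≃ₐ[K] ℂ} {l : ℕ}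

/-- The form `Q` is a polarization. -/
structure IsPol (c : ℂ ≃ₐ[K] ℂ) (h : Module.End ℂ (ℂ ⊗[K] V)) (Q : LinearMap.BilinForm K V) :
    Prop where
  skew : ∀ x y, QC Q (h x) y + QC Q x (h y) = 0
  conj : ∀ x, h (sg V c x) = - sg V c (h x)
  pos : ∀ (j : ℤ) (x : ℂ ⊗[K] V), h x = (j : ℂ) • x → x ≠ 0 →
    ∃ r : ℝ, 0 < r ∧ Complex.I ^ j * QC Q x (sg V c x) = r

/-- The Weil polynomial: its value in `j` is the `(-j)`-th power of the imaginary unit. -/
noncomputable def wl (l : ℕ) : ℂ[X] :=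
  Lagrange.interpolate (ivl l) (fun j : ℤ => (j : ℂ)) fun j => Complex.I ^ (-j)

lemma wl_eval {j : ℤ} (hj : j ∈ ivl l) : (wl l).eval (j : ℂ) = Complex.I ^ (-j) :=
  Lagrange.eval_interpolate_at_node _ (inj_cast _) hj

lemma aeval_eig {T : Type*} [AddCommGroup T] [Module ℂ T] {h : Module.End ℂ T} {x : T} {k : ℂ}
    (hx : h x = k • x) (p : ℂ[X]) : (aeval h p) x = p.eval k • x := by
  induction p using Polynomial.induction_on with
  | C a => rw [aeval_C, eval_C, Module.algebraMap_end_apply]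
  | add p q hp hq => rw [map_add, LinearMap.add_apply, hp, hq, eval_add, add_smul]
  | monomial n a ih =>
    rw [pow_succ, ← mul_assoc, map_mul, aeval_X, Module.End.mul_apply, hx, map_smul, ih,
      eval_mul (p := C a * X ^ n), eval_X, smul_smul, mul_comm]

variable {h : Module.End ℂ (ℂ ⊗[K] V)} {Q : LinearMap.BilinForm K V} {e : ℤ → Module.End ℂ (ℂ ⊗[K] V)}

lemma Dec.eig (hd : Dec ℂ l h e) {j : ℤ} (hj : j ∈ ivl l) (x : ℂ ⊗[K] V) :
    h (e j x) = (j : ℂ) • e j x := by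
  rw [← Module.End.mul_apply, hd.left j hj, LinearMap.smul_apply]

lemma Dec.sum_apply (hd : Dec ℂ l h e) (x : ℂ ⊗[K] V) : x = ∑ j ∈ ivl l, e j x := by
  conv_lhs => rw [← Module.End.one_apply (R := ℂ) x, ← hd.sum, LinearMap.sum_apply]

lemma IsPol.orth (hp : IsPol c h Q) {j k : ℤ} (hjk : j + k ≠ 0) {x y : ℂ ⊗[K] V}
    (hx : h x = (j : ℂ) • x) (hy : h y = (k : ℂ) • y) : QC Q x y = 0 := by
  have h1 := hp.skew x y
  rw [hx, hy, map_smul, map_smul, LinearMap.smul_apply, ← add_smul, smul_eq_mul] at h1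
  refine (mul_eq_zero.1 h1).resolve_left ?_
  exact_mod_cast hjk

lemma IsPol.eig_conj (hp : IsPol c h Q) {j : ℤ} {x : ℂ ⊗[K] V}
    (hx : h x = (j : ℂ) • x) : h (sg V c x) = ((-j : ℤ) : ℂ) • sg V c x := by
  rw [hp.conj, hx, sg_smul, map_intCast, Int.cast_neg, neg_smul]

/-- The Weil operator makes the form positive. -/
lemma IsPol.weil_pos (hp : IsPol c h Q) (hd : Dec ℂ l h e) {x : ℂ ⊗[K] V} (hx : x ≠ 0) :
    ∃ r : ℝ, 0 < r ∧ QC Q x (aeval h (wl l) (sg V c x)) = r := by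
  have h1 : aeval h (wl l) (sg V c x) = ∑ j ∈ ivl l, Complex.I ^ j • sg V c (e j x) := by
    conv_lhs => rw [hd.sum_apply x, map_sum, map_sum]
    refine Finset.sum_congr rfl fun j hj => ?_
    rw [aeval_eig (hp.eig_conj (hd.eig hj x)), wl_eval, neg_neg]
    rw [Finset.mem_Icc] at *
    omega
  have h2 : QC Q x (aeval h (wl l) (sg V c x)) =
      ∑ j ∈ ivl l, Complex.I ^ j * QC Q (e j x) (sg V c (e j x)) := by
    rw [h1, map_sum]
    refine Finset.sum_congr rfl fun j hj => ?_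
    rw [map_smul, smul_eq_mul]
    congr 1
    conv_lhs => rw [hd.sum_apply x, map_sum, LinearMap.sum_apply]
    rw [← hd.sum_apply x]
    refine Finset.sum_eq_single j ?_ fun h' => absurd hj h'
    intro k hk hkj
    exact hp.orth (by omega) (hd.eig hk x) (hp.eig_conj (hd.eig hj x))
  have h3 : ∀ j ∈ ivl l, ∃ r : ℝ, 0 ≤ r ∧ (e j x ≠ 0 → 0 < r) ∧
      Complex.I ^ j * QC Q (e j x) (sg V c (e j x)) = r := by
    intro j hj
    by_cases h0 : e j x = 0
    · exact ⟨0, le_rfl, fun h' => absurd h0 h', by rw [h0, map_zero, map_zero]; simp⟩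
    · obtain ⟨r, hr, he⟩ := hp.pos j (e j x) (hd.eig hj x) h0
      exact ⟨r, hr.le, fun _ => hr, he⟩
  choose! r hr0 hr1 hr2 using h3
  refine ⟨∑ j ∈ ivl l, r j, ?_, ?_⟩
  · obtain ⟨j, hj, hjx⟩ : ∃ j ∈ ivl l, e j x ≠ 0 := by
      by_contra hn
      push Not at hn
      exact hx ((hd.sum_apply x).trans (Finset.sum_eq_zero hn))
    exact Finset.sum_pos' hr0 ⟨j, hj, hr1 j hj hjx⟩
  · rw [h2, Complex.ofReal_sum]
    exact Finset.sum_congr rfl hr2

end One

section Family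

variable {ι : Type*} [Fintype ι] {V : ι → Type*} [∀ b, AddCommGroup (V b)]
  [∀ b, Module K (V b)] {c : ℂ ≃ₐ[K] ℂ} {l : ℕ} {h : ∀ b, Module.End ℂ (ℂ ⊗[K] V b)}
  {Q : ∀ b, LinearMap.BilinForm K (V b)}

/-- Subspaces of the product which are stable under the Hodge operators and under the
automorphisms of the complex numbers. -/
structure Stb (h : ∀ b, Module.End ℂ (ℂ ⊗[K] V b)) (P : Submodule ℂ (∀ b, ℂ ⊗[K] V b)) : Prop where
  op : ∀ t ∈ P, (fun b => h b (t b)) ∈ P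
  gal : ∀ (σ : ℂ ≃ₐ[K] ℂ), ∀ t ∈ P, (fun b => sg (V b) σ (t b)) ∈ P

omit [Fintype ι] in
lemma Stb.aeval {P : Submodule ℂ (∀ b, ℂ ⊗[K] V b)} (hP : Stb h P) (p : ℂ[X])
    {t : ∀ b, ℂ ⊗[K] V b} (ht : t ∈ P) : (fun b => Polynomial.aeval (h b) p (t b)) ∈ P := by
  induction p using Polynomial.induction_on with
  | C a =>
    have h1 : (fun b => Polynomial.aeval (h b) (C a) (t b)) = a • t := by
      funext b
      rw [aeval_C, Module.algebraMap_end_apply, Pi.smul_apply]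
    rw [h1]
    exact Submodule.smul_mem _ _ ht
  | add p q hp hq =>
    have h1 : (fun b => Polynomial.aeval (h b) (p + q) (t b)) =
        (fun b => Polynomial.aeval (h b) p (t b)) + fun b => Polynomial.aeval (h b) q (t b) := by
      funext b
      rw [map_add, LinearMap.add_apply, Pi.add_apply]
    rw [h1]
    exact Submodule.add_mem _ hp hq
  | monomial n a ih =>
    have h1 : (fun b => Polynomial.aeval (h b) (C a * X ^ (n + 1)) (t b)) =
        fun b => h b ((fun b => Polynomial.aeval (h b) (C a * X ^ n) (t b)) b) := by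
      funext b
      rw [pow_succ', ← mul_assoc, mul_comm (C a), mul_assoc, map_mul, aeval_X,
        Module.End.mul_apply]
    rw [h1]
    exact hP.op _ ih

variable [∀ b, Module.Finite K (V b)]

/-- **Complements.** -/
theorem exists_compl (hd : ∀ b, ∃ e, Dec ℂ l (h b) e) (hp : ∀ b, IsPol c (h b) (Q b))
    {P : Submodule ℂ (∀ b, ℂ ⊗[K] V b)} (hP : Stb h P) : ∃ P', Stb h P' ∧ IsCompl P P' := by
  let B : (∀ b, ℂ ⊗[K] V b) →ₗ[ℂ] (∀ b, ℂ ⊗[K] V b) →ₗ[ℂ] ℂ :=
    ∑ b, (QC (Q b)).compl₁₂ (LinearMap.proj b) (LinearMap.proj b)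
  have hB : ∀ x y, B x y = ∑ b, QC (Q b) (x b) (y b) := by
    intro x y
    simp only [B, LinearMap.sum_apply, LinearMap.compl₁₂_apply, LinearMap.proj_apply]
  let f : (∀ b, ℂ ⊗[K] V b) →ₗ[ℂ] Module.Dual ℂ P := (LinearMap.lcomp ℂ ℂ P.subtype) ∘ₗ B
  have hf : ∀ y, y ∈ LinearMap.ker f ↔ ∀ x ∈ P, ∑ b, QC (Q b) (y b) (x b) = 0 := by
    intro y
    rw [LinearMap.mem_ker]
    constructor
    · intro h1 x hx
      have h2 := congrArg (fun g : Module.Dual ℂ P => g ⟨x, hx⟩) h1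
      change B y x = 0 at h2
      rwa [hB] at h2
    · intro h1
      apply LinearMap.ext
      rintro ⟨x, hx⟩
      change B y x = 0
      rw [hB]
      exact h1 x hx
  choose e he using hd
  have hdisj : Disjoint P (LinearMap.ker f) := by
    rw [Submodule.disjoint_def]
    intro x hx hx'
    rw [hf] at hx'
    have h1 := hx' _ (hP.aeval (wl l) (hP.gal c x hx))
    funext b
    by_contra hb
    have h3 : ∀ b, ∃ r : ℝ, 0 ≤ r ∧ (x b ≠ 0 → 0 < r) ∧
        QC (Q b) (x b) (Polynomial.aeval (h b) (wl l) (sg (V b) c (x b))) = r := by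
      intro b
      by_cases h0 : x b = 0
      · exact ⟨0, le_rfl, fun h' => absurd h0 h', by rw [h0, map_zero]; simp⟩
      · obtain ⟨r, hr, he⟩ := (hp b).weil_pos (he b) h0
        exact ⟨r, hr.le, fun _ => hr, he⟩
    choose r hr0 hr1 hr2 using h3
    rw [Finset.sum_congr rfl fun b _ => hr2 b, ← Complex.ofReal_sum, Complex.ofReal_eq_zero] at h1
    have h4 : 0 < ∑ b, r b := Finset.sum_pos' (fun b _ => hr0 b) ⟨b, Finset.mem_univ _, hr1 b hb⟩
    exact absurd h1 h4.ne'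
  refine ⟨LinearMap.ker f, ⟨?_, ?_⟩, hdisj, ?_⟩
  · intro t ht
    rw [hf] at ht ⊢
    intro x hx
    have h1 := ht _ (hP.op x hx)
    rw [← neg_eq_zero, ← Finset.sum_neg_distrib] at h1
    rw [← h1]
    refine Finset.sum_congr rfl fun b _ => ?_
    exact eq_neg_of_add_eq_zero_left ((hp b).skew _ _)
  · intro σ t ht
    rw [hf] at ht ⊢
    intro x hx
    have h1 := congrArg σ (ht _ (hP.gal σ⁻¹ x hx))
    rw [map_sum, map_zero] at h1
    rw [← h1]
    refine Finset.sum_congr rfl fun b _ => ?_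
    rw [← QC_sg, sg_inv]
  · rw [codisjoint_iff]
    have h1 := LinearMap.finrank_range_add_finrank_ker f
    have h2 : finrank ℂ (LinearMap.range f) ≤ finrank ℂ P :=
      (Submodule.finrank_le _).trans (Subspace.dual_finrank_eq (K := ℂ) (V := P)).le
    have h3 := Submodule.finrank_sup_add_finrank_inf_eq P (LinearMap.ker f)
    rw [disjoint_iff.1 hdisj, finrank_bot, add_zero] at h3
    apply Submodule.eq_top_of_finrank_eq
    apply le_antisymm (Submodule.finrank_le _)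
    rw [h3]
    omega

variable {N : Type*} [AddCommGroup N] [Module K N] {hN : Module.End ℂ (ℂ ⊗[K] N)}

/-- The rational map `g` is a morphism of Hodge structures (up to twists). -/
def Mor {V : Type*} [AddCommGroup V] [Module K V] (h : Module.End ℂ (ℂ ⊗[K] V))
    (hN : Module.End ℂ (ℂ ⊗[K] N)) (g : V →ₗ[K] N) : Prop :=
  ∀ x, g.baseChange ℂ (h x) = hN (g.baseChange ℂ x)

/-- **Sections.** -/
theorem exists_section
    (hK : ∀ z : ℂ, (∀ σ : ℂ ≃ₐ[K] ℂ, σ z = z) → ∃ r : K, algebraMap K ℂ r = z)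
    (hd : ∀ b, ∃ e, Dec ℂ l (h b) e) (hp : ∀ b, IsPol c (h b) (Q b))
    (g : ∀ b, V b →ₗ[K] N) (hg : ∀ b, Mor (h b) hN (g b))
    (hsurj : ∀ v : N, ∃ t : ∀ b, V b, ∑ b, g b (t b) = v) :
    ∃ s : ∀ b, N →ₗ[K] V b, (∀ b, Mor hN (h b) (s b)) ∧ ∀ v, ∑ b, g b (s b v) = v := by
  let Φ : (∀ b, ℂ ⊗[K] V b) →ₗ[ℂ] ℂ ⊗[K] N := ∑ b, (g b).baseChange ℂ ∘ₗ LinearMap.proj b
  have hΦ : ∀ t, Φ t = ∑ b, (g b).baseChange ℂ (t b) := by
    intro t
    simp only [Φ, LinearMap.sum_apply, LinearMap.comp_apply, LinearMap.proj_apply]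
  have hΦh : ∀ t, Φ (fun b => h b (t b)) = hN (Φ t) := by
    intro t
    rw [hΦ, hΦ, map_sum]
    exact Finset.sum_congr rfl fun b _ => hg b _
  have hΦσ : ∀ (σ : ℂ ≃ₐ[K] ℂ) t, Φ (fun b => sg (V b) σ (t b)) = sg N σ (Φ t) := by
    intro σ t
    rw [hΦ, hΦ, map_sum]
    exact Finset.sum_congr rfl fun b _ => sg_baseChange σ _ _
  have hsur : Function.Surjective Φ := by
    rw [← LinearMap.range_eq_top, eq_top_iff]
    intro y _
    induction y using TensorProduct.induction_on with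
    | zero => exact Submodule.zero_mem _
    | add x y hx hy => exact Submodule.add_mem _ (hx trivial) (hy trivial)
    | tmul z v =>
      obtain ⟨t, ht⟩ := hsurj v
      refine ⟨fun b => z ⊗ₜ[K] t b, ?_⟩
      rw [hΦ, ← ht, tmul_sum]
      exact Finset.sum_congr rfl fun b _ => LinearMap.baseChange_tmul _ _ _
  have hker : Stb h (LinearMap.ker Φ) := by
    refine ⟨fun t ht => ?_, fun σ t ht => ?_⟩
    · rw [LinearMap.mem_ker] at ht ⊢
      rw [hΦh, ht, map_zero]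
    · rw [LinearMap.mem_ker] at ht ⊢
      rw [hΦσ, ht, map_zero]
  obtain ⟨P', hP', hc⟩ := exists_compl hd hp hker
  obtain ⟨r, hr⟩ := LinearMap.exists_rightInverse_of_surjective Φ (LinearMap.range_eq_top.2 hsur)
  let s : ℂ ⊗[K] N →ₗ[ℂ] (∀ b, ℂ ⊗[K] V b) :=
    P'.subtype ∘ₗ (Submodule.projectionOnto P' (LinearMap.ker Φ) hc.symm) ∘ₗ r
  have hs1 : ∀ y, s y ∈ P' := fun y => Subtype.mem _
  have hs2 : ∀ y, Φ (s y) = y := by
    intro y
    have h1 : r y - s y ∈ LinearMap.ker Φ := by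
      have h2 := Submodule.projectionOnto_apply_eq_zero_iff hc.symm (x := r y - s y)
      rw [← h2, map_sub, sub_eq_zero]
      exact (Submodule.projectionOnto_apply_left hc.symm _).symm
    rw [LinearMap.mem_ker, map_sub, sub_eq_zero] at h1
    rw [← h1]
    exact congrArg (fun f : ℂ ⊗[K] N →ₗ[ℂ] ℂ ⊗[K] N => f y) hr
  have huniq : ∀ t ∈ P', ∀ y, Φ t = y → t = s y := by
    intro t ht y hty
    have h1 : t - s y ∈ LinearMap.ker Φ := by
      rw [LinearMap.mem_ker, map_sub, hty, hs2, sub_self]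
    exact sub_eq_zero.1 (Submodule.disjoint_def.1 hc.disjoint _ h1
      (Submodule.sub_mem _ ht (hs1 y)))
  have hsh : ∀ y b, s (hN y) b = h b (s y b) := by
    intro y b
    have h1 := huniq _ (hP'.op _ (hs1 y)) (hN y) (by rw [hΦh, hs2])
    exact (congrFun h1 b).symm
  have hsσ : ∀ (σ : ℂ ≃ₐ[K] ℂ) y b, s (sg N σ y) b = sg (V b) σ (s y b) := by
    intro σ y b
    have h1 := huniq _ (hP'.gal σ _ (hs1 y)) (sg N σ y) (by rw [hΦσ, hs2])
    exact (congrFun h1 b).symm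
  have h5 : ∀ b, ∃ g : N →ₗ[K] V b, g.baseChange ℂ = LinearMap.proj b ∘ₗ s := fun b =>
    exists_rat_map hK _ fun σ x => hsσ σ x b
  choose s' hs' using h5
  refine ⟨s', fun b x => ?_, fun v => ?_⟩
  · rw [hs']
    exact hsh x b
  · apply one_tmul_inj (K := K)
    rw [tmul_sum]
    have h6 := hs2 (1 ⊗ₜ[K] v)
    rw [hΦ] at h6
    rw [← h6]
    refine Finset.sum_congr rfl fun b _ => ?_
    have h7 : s (1 ⊗ₜ[K] v) b = (s' b).baseChange ℂ (1 ⊗ₜ[K] v) := by rw [hs']; rfl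
    rw [h7, LinearMap.baseChange_tmul, LinearMap.baseChange_tmul]

end Family

section Retract

variable {V M : Type*} [AddCommGroup V] [Module K V] [Module.Finite K V] [AddCommGroup M]
  [Module K M] {c : ℂ ≃ₐ[K] ℂ} {l : ℕ} {h : Module.End ℂ (ℂ ⊗[K] V)}
  {hM : Module.End ℂ (ℂ ⊗[K] M)} {Q : LinearMap.BilinForm K V}

/-- **Retractions.** -/
theorem exists_retraction
    (hK : ∀ z : ℂ, (∀ σ : ℂ ≃ₐ[K] ℂ, σ z = z) → ∃ r : K, algebraMap K ℂ r = z)
    (hd : ∃ e, Dec ℂ l h e) (hp : IsPol c h Q) (i : M →ₗ[K] V) (hi : Function.Injective i)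
    (him : Mor hM h i) : ∃ ρ : V →ₗ[K] M, Mor h hM ρ ∧ ∀ m, ρ (i m) = m := by
  let Ψ : ℂ ⊗[K] M →ₗ[ℂ] (Unit → ℂ ⊗[K] V) := LinearMap.pi fun _ => i.baseChange ℂ
  have hΨi : Function.Injective Ψ := by
    have h1 : Function.Injective (i.baseChange ℂ) :=
      Module.Flat.lTensor_preserves_injective_linearMap (M := ℂ) i hi
    intro x y hxy
    exact h1 (congrFun hxy ())
  have hr : Stb (fun _ : Unit => h) (LinearMap.range Ψ) := by
    constructor
    · rintro _ ⟨x, rfl⟩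
      exact ⟨hM x, funext fun _ => him x⟩
    · rintro σ _ ⟨x, rfl⟩
      exact ⟨sg M σ x, funext fun _ => sg_baseChange σ _ _⟩
  obtain ⟨P', hP', hc⟩ := exists_compl (ι := Unit) (V := fun _ => V) (fun _ => hd)
    (fun _ => hp) hr
  let E := LinearEquiv.ofInjective Ψ hΨi
  let ρ : ℂ ⊗[K] V →ₗ[ℂ] ℂ ⊗[K] M :=
    E.symm.toLinearMap ∘ₗ (Submodule.projectionOnto _ _ hc) ∘ₗ
      LinearMap.pi fun _ => LinearMap.id
  have hρ1 : ∀ x, ρ (i.baseChange ℂ x) = x := by
    intro x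
    change E.symm (Submodule.projectionOnto _ _ hc (Ψ x)) = x
    rw [LinearEquiv.symm_apply_eq]
    exact Submodule.projectionOnto_apply_left hc (E x)
  have hρ2 : ∀ t ∈ P', ρ (t ()) = 0 := by
    intro t ht
    change E.symm (Submodule.projectionOnto _ _ hc (fun _ => t ())) = 0
    have h1 : (fun _ : Unit => t ()) = t := funext fun _ => rfl
    rw [h1, (Submodule.projectionOnto_apply_eq_zero_iff hc).2 ht, map_zero]
  have hdec : ∀ y : ℂ ⊗[K] V, ∃ x, ∃ t ∈ P', y = i.baseChange ℂ x + t () := by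
    intro y
    have h1 : (fun _ : Unit => y) ∈ LinearMap.range Ψ ⊔ P' := by
      rw [hc.sup_eq_top]; trivial
    obtain ⟨_, ⟨x, rfl⟩, t, ht, h2⟩ := Submodule.mem_sup.1 h1
    exact ⟨x, t, ht, (congrFun h2 ()).symm⟩
  have hρh : ∀ y, ρ (h y) = hM (ρ y) := by
    intro y
    obtain ⟨x, t, ht, rfl⟩ := hdec y
    rw [map_add, map_add, map_add, hρ1, hρ2 t ht, ← him, hρ1, hρ2 _ (hP'.op t ht), add_zero,
      add_zero]
  have hρσ : ∀ (σ : ℂ ≃ₐ[K] ℂ) y, ρ (sg V σ y) = sg M σ (ρ y) := by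
    intro σ y
    obtain ⟨x, t, ht, rfl⟩ := hdec y
    rw [map_add, map_add, map_add, hρ1, hρ2 t ht, ← sg_baseChange, hρ1, hρ2 _ (hP'.gal σ t ht),
      add_zero, add_zero]
  obtain ⟨ρ', hρ'⟩ := exists_rat_map hK ρ hρσ
  refine ⟨ρ', fun x => ?_, fun m => ?_⟩
  · rw [hρ']; exact hρh x
  · apply one_tmul_inj (K := K)
    have h1 := hρ1 (1 ⊗ₜ[K] m)
    rw [← hρ', LinearMap.baseChange_tmul, LinearMap.baseChange_tmul] at h1
    exact h1

end Retract

end Pool.Agent.Q50.BL
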