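import Pool.Agent.Q50.BL.Pol

/-!
# Finiteness of families of Hodge structures of bounded level

Let `M i` be polarized Hodge structures of level at most `l` such that the families of operators
`x i` on `ℂ ⊗ M i` generated by the conjugates of the Hodge operators are contained in a
finite-dimensional space of families which is closed under commutators. Then all the `M i` are
direct summands of sums of finitely many of them.
-/

namespace Pool.Agent.Q50.BL

open TensorProduct Polynomial Module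

/-- A finite-dimensional space of families is detected by finitely many components. -/
lemma exists_finset {k : Type*} [Field k] {ι : Type*} {E : ι → Type*} [∀ i, AddCommGroup (E i)]
    [∀ i, Module k (E i)] (n : ℕ) : ∀ (A : Submodule k (∀ i, E i)) [FiniteDimensional k A],
      finrank k A ≤ n → ∃ F : Finset ι, F.card ≤ n ∧ ∀ a ∈ A, (∀ i ∈ F, a i = 0) → a = 0 := by
  classical
  induction n with
  | zero =>
    intro A _ hA
    refine ⟨∅, le_rfl, fun a ha _ => ?_⟩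
    have h1 : A = ⊥ := Submodule.finrank_eq_zero.1 (Nat.le_zero.1 hA)
    rw [h1] at ha
    exact (Submodule.mem_bot k).1 ha
  | succ n ih =>
    intro A _ hA
    by_cases h0 : A = ⊥
    · refine ⟨∅, Nat.zero_le _, fun a ha _ => ?_⟩
      rw [h0] at ha
      exact (Submodule.mem_bot k).1 ha
    · obtain ⟨a, ha, hane⟩ := Submodule.exists_mem_ne_zero_of_ne_bot h0
      obtain ⟨i, hi⟩ := Function.ne_iff.1 hane
      let A' : Submodule k (∀ i, E i) := A ⊓ LinearMap.ker (LinearMap.proj i : (∀ i, E i) →ₗ[k] E i)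
      have hle : A' ≤ A := inf_le_left
      have hfd : FiniteDimensional k A' := Submodule.finiteDimensional_of_le hle
      have hlt : A' < A := by
        refine lt_of_le_of_ne hle fun h => hi ?_
        have h1 : a ∈ A' := by rw [h]; exact ha
        exact h1.2
      have h2 := Submodule.finrank_lt_finrank_of_lt hlt
      obtain ⟨F, hF, h3⟩ := ih A' (by omega)
      refine ⟨insert i F, (Finset.card_insert_le _ _).trans (by omega), fun a ha h4 => ?_⟩
      exact h3 a ⟨ha, h4 i (Finset.mem_insert_self _ _)⟩ fun j hj =>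
        h4 j (Finset.mem_insert_of_mem hj)

variable {K : Type} [Field K] [Algebra K ℂ]

lemma finrank_range_baseChange {V V' : Type*} [AddCommGroup V] [Module K V] [AddCommGroup V']
    [Module K V'] (p : V →ₗ[K] V') :
    finrank ℂ (LinearMap.range (p.baseChange ℂ)) = finrank K (LinearMap.range p) := by
  have h1 : p.baseChange ℂ = (LinearMap.range p).subtype.baseChange ℂ ∘ₗ
      p.rangeRestrict.baseChange ℂ := by
    rw [← LinearMap.baseChange_comp]
    rfl
  have h2 : LinearMap.range (p.rangeRestrict.baseChange ℂ) = ⊤ := by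
    rw [LinearMap.range_eq_top]
    exact LinearMap.lTensor_surjective ℂ p.surjective_rangeRestrict
  have h3 : Function.Injective ((LinearMap.range p).subtype.baseChange ℂ) :=
    Module.Flat.lTensor_preserves_injective_linearMap (M := ℂ) _
      (LinearMap.range p).injective_subtype
  rw [h1, LinearMap.range_comp, h2, Submodule.map_top,
    LinearMap.finrank_range_of_inj h3, Module.finrank_baseChange]

/-- The conjugate of a decomposition. -/
lemma Dec.cjg {V : Type*} [AddCommGroup V] [Module K V] {l : ℕ}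
    {h : Module.End ℂ (ℂ ⊗[K] V)} {e : ℤ → Module.End ℂ (ℂ ⊗[K] V)} (hd : Dec ℂ l h e)
    (σ : ℂ ≃ₐ[K] ℂ) : Dec ℂ l (BL.cjg σ h) fun j => BL.cjg σ (e j) := by
  refine ⟨?_, fun j hj => ?_, fun j hj => ?_⟩
  · have h1 : ∀ s : Finset ℤ, ∑ j ∈ s, BL.cjg σ (e j) = BL.cjg σ (∑ j ∈ s, e j) := by
      intro s
      induction s using Finset.cons_induction with
      | empty => rw [Finset.sum_empty, Finset.sum_empty, cjg_zero]
      | cons a s ha ih => rw [Finset.sum_cons, Finset.sum_cons, ih, cjg_add]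
    rw [h1, hd.sum, cjg_one]
  · rw [← cjg_mul, hd.left j hj, cjg_smul, map_intCast]
  · rw [← cjg_mul, hd.right j hj, cjg_smul, map_intCast]

variable {ι : Type} {M : ι → Type} [∀ i, AddCommGroup (M i)] [∀ i, Module K (M i)]
  [∀ i, Module.Finite K (M i)] {c : ℂ ≃ₐ[K] ℂ} {l : ℕ} {h : ∀ i, Module.End ℂ (ℂ ⊗[K] M i)}
  {Q : ∀ i, LinearMap.BilinForm K (M i)}

/-- The families of the conjugates of the Hodge operators. -/
def cjs (h : ∀ i, Module.End ℂ (ℂ ⊗[K] M i)) : Set (∀ i, Module.End ℂ (ℂ ⊗[K] M i)) :=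
  {x | ∃ σ : ℂ ≃ₐ[K] ℂ, (fun i => cjg σ (h i)) = x}

/-- The algebra generated by the conjugates of the Hodge operators. -/
noncomputable def alg (h : ∀ i, Module.End ℂ (ℂ ⊗[K] M i)) :
    Subalgebra ℂ (∀ i, Module.End ℂ (ℂ ⊗[K] M i)) := Algebra.adjoin ℂ (cjs h)

omit [∀ i, Module.Finite K (M i)] in
lemma alg_h : h ∈ alg h := by
  refine Algebra.subset_adjoin ⟨1, ?_⟩
  funext i
  apply LinearMap.ext
  intro x
  rw [cjg_apply, inv_one, sg_one, sg_one]

omit [∀ i, Module.Finite K (M i)] in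
lemma alg_gal (σ : ℂ ≃ₐ[K] ℂ) {a : ∀ i, Module.End ℂ (ℂ ⊗[K] M i)} (ha : a ∈ alg h) :
    (fun i => cjg σ (a i)) ∈ alg h := by
  induction ha using Algebra.adjoin_induction with
  | mem x hx =>
    obtain ⟨τ, rfl⟩ := hx
    refine Algebra.subset_adjoin ⟨σ * τ, ?_⟩
    funext i
    rw [cjg_cjg]
  | algebraMap r =>
    have h1 : (fun i => cjg σ ((algebraMap ℂ (∀ i, Module.End ℂ (ℂ ⊗[K] M i)) r) i)) =
        algebraMap ℂ (∀ i, Module.End ℂ (ℂ ⊗[K] M i)) (σ r) := by
      funext i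
      rw [Pi.algebraMap_apply, Pi.algebraMap_apply, Algebra.algebraMap_eq_smul_one,
        Algebra.algebraMap_eq_smul_one, cjg_smul, cjg_one]
    rw [h1]
    exact Subalgebra.algebraMap_mem _ _
  | add x y _ _ hx hy =>
    have h1 : (fun i => cjg σ ((x + y) i)) = (fun i => cjg σ (x i)) + fun i => cjg σ (y i) := by
      funext i
      rw [Pi.add_apply, Pi.add_apply, cjg_add]
    rw [h1]
    exact Subalgebra.add_mem _ hx hy
  | mul x y _ _ hx hy =>
    have h1 : (fun i => cjg σ ((x * y) i)) = (fun i => cjg σ (x i)) * fun i => cjg σ (y i) := by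
      funext i
      rw [Pi.mul_apply, Pi.mul_apply, cjg_mul]
    rw [h1]
    exact Subalgebra.mul_mem _ hx hy

omit [∀ i, Module.Finite K (M i)] in
/-- **The algebra is finite-dimensional.** -/
theorem alg_finite (hd : ∀ i, ∃ e, Dec ℂ l (h i) e)
    {D : Submodule ℂ (∀ i, Module.End ℂ (ℂ ⊗[K] M i))} [FiniteDimensional ℂ D]
    (hD : ∀ x ∈ D, ∀ y ∈ D, x * y - y * x ∈ D)
    (hDσ : ∀ σ : ℂ ≃ₐ[K] ℂ, (fun i => cjg σ (h i)) ∈ D) :
    Module.Finite ℂ (alg h) ∧ finrank ℂ (alg h) ≤ (2 * l + 1) ^ finrank ℂ D := by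
  refine finite_adjoin_set hD ?_ ?_
  · rintro _ ⟨σ, rfl⟩
    exact hDσ σ
  · rintro _ ⟨σ, rfl⟩
    choose e he using hd
    refine ⟨fun j i => cjg σ (e i j), ?_, ?_, ?_⟩
    · funext i
      rw [Finset.sum_apply]
      exact ((he i).cjg σ).sum
    · intro j hj
      funext i
      exact ((he i).cjg σ).left j hj
    · intro j hj
      funext i
      exact ((he i).cjg σ).right j hj

/-- **Every vector is contained in a Hodge substructure of bounded dimension.** -/
theorem exists_small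
    (hK : ∀ z : ℂ, (∀ σ : ℂ ≃ₐ[K] ℂ, σ z = z) → ∃ r : K, algebraMap K ℂ r = z)
    (hd : ∀ i, ∃ e, Dec ℂ l (h i) e) (hp : ∀ i, IsPol c (h i) (Q i))
    [Module.Finite ℂ (alg h)] (i : ι) (u : M i) :
    ∃ π : M i →ₗ[K] M i, Mor (h i) (h i) π ∧ π u = u ∧ π ∘ₗ π = π ∧
      finrank K (LinearMap.range π) ≤ finrank ℂ (alg h) := by
  let Ψ : alg h →ₗ[ℂ] (Unit → ℂ ⊗[K] M i) :=
    { toFun := fun a _ => (a : ∀ i, Module.End ℂ (ℂ ⊗[K] M i)) i (1 ⊗ₜ[K] u)
      map_add' := fun a b => rfl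
      map_smul' := fun z a => rfl }
  have hr : Stb (fun _ : Unit => h i) (LinearMap.range Ψ) := by
    constructor
    · rintro _ ⟨a, rfl⟩
      exact ⟨⟨h, alg_h⟩ * a, rfl⟩
    · rintro σ _ ⟨a, rfl⟩
      refine ⟨⟨_, alg_gal σ a.2⟩, funext fun _ => ?_⟩
      change cjg σ ((a : ∀ i, Module.End ℂ (ℂ ⊗[K] M i)) i) (1 ⊗ₜ[K] u) = _
      rw [cjg_apply, sg_tmul, map_one]
      rfl
  obtain ⟨P', hP', hc⟩ := exists_compl (ι := Unit) (V := fun _ => M i) (fun _ => hd i)
    (fun _ => hp i) hr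
  let π : ℂ ⊗[K] M i →ₗ[ℂ] ℂ ⊗[K] M i :=
    LinearMap.proj () ∘ₗ (LinearMap.range Ψ).subtype ∘ₗ
      (Submodule.projectionOnto _ _ hc) ∘ₗ LinearMap.pi fun _ => LinearMap.id
  have hπ1 : ∀ t ∈ LinearMap.range Ψ, π (t ()) = t () := by
    intro t ht
    change ((Submodule.projectionOnto _ _ hc (fun _ => t ()) : LinearMap.range Ψ) :
      Unit → ℂ ⊗[K] M i) () = t ()
    have h1 : (fun _ : Unit => t ()) = ((⟨t, ht⟩ : LinearMap.range Ψ) : Unit → ℂ ⊗[K] M i) := rfl
    rw [h1, Submodule.projectionOnto_apply_left hc]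
  have hπ2 : ∀ t ∈ P', π (t ()) = 0 := by
    intro t ht
    change ((Submodule.projectionOnto _ _ hc (fun _ => t ()) : LinearMap.range Ψ) :
      Unit → ℂ ⊗[K] M i) () = 0
    have h1 : (fun _ : Unit => t ()) = t := funext fun _ => rfl
    rw [h1, (Submodule.projectionOnto_apply_eq_zero_iff hc).2 ht]
    rfl
  have hdec : ∀ y : ℂ ⊗[K] M i, ∃ t ∈ LinearMap.range Ψ, ∃ t' ∈ P', y = t () + t' () := by
    intro y
    have h1 : (fun _ : Unit => y) ∈ LinearMap.range Ψ ⊔ P' := by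
      rw [hc.sup_eq_top]; trivial
    obtain ⟨t, ht, t', ht', h2⟩ := Submodule.mem_sup.1 h1
    exact ⟨t, ht, t', ht', (congrFun h2 ()).symm⟩
  have hπh : ∀ y, π (h i y) = h i (π y) := by
    intro y
    obtain ⟨t, ht, t', ht', rfl⟩ := hdec y
    rw [map_add, map_add, map_add, hπ1 t ht, hπ2 t' ht', hπ1 _ (hr.op t ht), hπ2 _ (hP'.op t' ht'),
      add_zero, add_zero]
  have hπσ : ∀ (σ : ℂ ≃ₐ[K] ℂ) y, π (sg (M i) σ y) = sg (M i) σ (π y) := by
    intro σ y
    obtain ⟨t, ht, t', ht', rfl⟩ := hdec y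
    rw [map_add, map_add, map_add, hπ1 t ht, hπ2 t' ht', hπ1 _ (hr.gal σ t ht),
      hπ2 _ (hP'.gal σ t' ht'), add_zero, add_zero]
  have hππ : ∀ y, π (π y) = π y := by
    intro y
    obtain ⟨t, ht, t', ht', rfl⟩ := hdec y
    rw [map_add, hπ1 t ht, hπ2 t' ht', add_zero, hπ1 t ht]
  obtain ⟨p, hp'⟩ := exists_rat_map hK π hπσ
  refine ⟨p, fun x => ?_, ?_, ?_, ?_⟩
  · rw [hp']; exact hπh x
  · apply one_tmul_inj (K := K)
    have h1 := hπ1 (fun _ => 1 ⊗ₜ[K] u) ⟨1, rfl⟩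
    rw [← hp', LinearMap.baseChange_tmul] at h1
    exact h1
  · apply LinearMap.ext
    intro v
    apply one_tmul_inj (K := K)
    have h1 := hππ (1 ⊗ₜ[K] v)
    rw [← hp', LinearMap.baseChange_tmul, LinearMap.baseChange_tmul] at h1
    exact h1
  · rw [← finrank_range_baseChange p, hp']
    have h2 : LinearMap.range π ≤ (LinearMap.range Ψ).map (LinearMap.proj ()) := by
      rintro _ ⟨y, rfl⟩
      obtain ⟨t, ht, t', ht', rfl⟩ := hdec y
      rw [map_add, hπ1 t ht, hπ2 t' ht', add_zero]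
      exact ⟨t, ht, rfl⟩
    exact (Submodule.finrank_mono h2).trans ((Submodule.finrank_map_le _ _).trans
      (LinearMap.finrank_range_le _))

/-- One vector is a sum of images of vectors of finitely many of the spaces. -/
lemma exists_maps
    (hK : ∀ z : ℂ, (∀ σ : ℂ ≃ₐ[K] ℂ, σ z = z) → ∃ r : K, algebraMap K ℂ r = z)
    (hd : ∀ i, ∃ e, Dec ℂ l (h i) e) (hp : ∀ i, IsPol c (h i) (Q i))
    [Module.Finite ℂ (alg h)] {F : Finset ι}
    (hF : ∀ a ∈ alg h, (∀ i ∈ F, a i = 0) → a = 0) (j : ι) (u : M j) :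
    ∃ g : ∀ b : (Σ i : F, Fin (finrank K (M i))), M b.1 →ₗ[K] M j,
      (∀ b, Mor (h b.1) (h j) (g b)) ∧ ∑ b, g b (finBasis K (M b.1) b.2) = u := by
  classical
  let e : ∀ b : (Σ i : F, Fin (finrank K (M i))), M b.1 := fun b => finBasis K (M b.1) b.2
  let Ψ : alg h →ₗ[ℂ] (∀ b : (Σ i : F, Fin (finrank K (M i))), ℂ ⊗[K] M b.1) :=
    { toFun := fun a b => (a : ∀ i, Module.End ℂ (ℂ ⊗[K] M i)) b.1 (1 ⊗ₜ[K] e b)
      map_add' := fun a b => rfl
      map_smul' := fun z a => rfl }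
  have hΨ0 : ∀ a, Ψ a = 0 → a = 0 := by
    intro a ha
    apply Subtype.ext
    refine hF _ a.2 fun i hi => ?_
    refine ((finBasis K (M i)).baseChange ℂ).ext fun b => ?_
    rw [Basis.baseChange_apply, LinearMap.zero_apply]
    exact congrFun ha ⟨⟨i, hi⟩, b⟩
  have hΨ : Function.Injective Ψ := fun a b hab =>
    sub_eq_zero.1 (hΨ0 _ (by rw [map_sub, hab, sub_self]))
  have hr : Stb (fun b : (Σ i : F, Fin (finrank K (M i))) => h b.1) (LinearMap.range Ψ) := by
    constructor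
    · rintro _ ⟨a, rfl⟩
      exact ⟨⟨h, alg_h⟩ * a, rfl⟩
    · rintro σ _ ⟨a, rfl⟩
      refine ⟨⟨_, alg_gal σ a.2⟩, funext fun b => ?_⟩
      change cjg σ ((a : ∀ i, Module.End ℂ (ℂ ⊗[K] M i)) b.1) (1 ⊗ₜ[K] e b) = _
      rw [cjg_apply, sg_tmul, map_one]
      rfl
  obtain ⟨P', hP', hc⟩ := exists_compl (c := c) (l := l)
    (ι := Σ i : F, Fin (finrank K (M i))) (V := fun b => M b.1) (Q := fun b => Q b.1)
    (fun b => hd b.1) (fun b => hp b.1) hr
  let E := LinearEquiv.ofInjective Ψ hΨ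
  let ev : alg h →ₗ[ℂ] ℂ ⊗[K] M j :=
    { toFun := fun a => (a : ∀ i, Module.End ℂ (ℂ ⊗[K] M i)) j (1 ⊗ₜ[K] u)
      map_add' := fun a b => rfl
      map_smul' := fun z a => rfl }
  let θ : (∀ b : (Σ i : F, Fin (finrank K (M i))), ℂ ⊗[K] M b.1) →ₗ[ℂ] ℂ ⊗[K] M j :=
    ev ∘ₗ E.symm.toLinearMap ∘ₗ (Submodule.projectionOnto _ _ hc)
  have hθ1 : ∀ a : alg h, θ (Ψ a) = ev a := by
    intro a
    change ev (E.symm (Submodule.projectionOnto _ _ hc (Ψ a))) = ev a
    congr 1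
    rw [LinearEquiv.symm_apply_eq]
    exact Submodule.projectionOnto_apply_left hc (E a)
  have hθ2 : ∀ t ∈ P', θ t = 0 := by
    intro t ht
    change ev (E.symm (Submodule.projectionOnto _ _ hc t)) = 0
    rw [(Submodule.projectionOnto_apply_eq_zero_iff hc).2 ht, map_zero, map_zero]
  have hdec : ∀ y : (∀ b : (Σ i : F, Fin (finrank K (M i))), ℂ ⊗[K] M b.1),
      ∃ a, ∃ t ∈ P', y = Ψ a + t := by
    intro y
    have h1 : y ∈ LinearMap.range Ψ ⊔ P' := by
      rw [hc.sup_eq_top]; trivial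
    obtain ⟨_, ⟨a, rfl⟩, t, ht, h2⟩ := Submodule.mem_sup.1 h1
    exact ⟨a, t, ht, h2.symm⟩
  have hθh : ∀ y, θ (fun b => h b.1 (y b)) = h j (θ y) := by
    intro y
    obtain ⟨a, t, ht, rfl⟩ := hdec y
    have h1 : (fun b : (Σ i : F, Fin (finrank K (M i))) => h b.1 ((Ψ a + t) b)) =
        Ψ (⟨h, alg_h⟩ * a) + fun b => h b.1 (t b) := by
      funext b
      rw [Pi.add_apply, map_add]
      rfl
    rw [h1, map_add, map_add, hθ1, hθ1, hθ2 t ht, hθ2 _ (hP'.op t ht), add_zero, add_zero]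
    rfl
  have hθσ : ∀ (σ : ℂ ≃ₐ[K] ℂ) y, θ (fun b => sg (M b.1) σ (y b)) = sg (M j) σ (θ y) := by
    intro σ y
    obtain ⟨a, t, ht, rfl⟩ := hdec y
    have h1 : (fun b : (Σ i : F, Fin (finrank K (M i))) => sg (M b.1) σ ((Ψ a + t) b)) =
        Ψ ⟨_, alg_gal σ a.2⟩ + fun b => sg (M b.1) σ (t b) := by
      funext b
      rw [Pi.add_apply, map_add, Pi.add_apply]
      congr 1
      change _ = cjg σ ((a : ∀ i, Module.End ℂ (ℂ ⊗[K] M i)) b.1) (1 ⊗ₜ[K] e b)
      rw [cjg_apply, sg_tmul, map_one]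
      rfl
    rw [h1, map_add, map_add, hθ1, hθ1, hθ2 t ht, hθ2 _ (hP'.gal σ t ht), add_zero, add_zero]
    change cjg σ ((a : ∀ i, Module.End ℂ (ℂ ⊗[K] M i)) j) (1 ⊗ₜ[K] u) = _
    rw [cjg_apply, sg_tmul, map_one]
    rfl
  have hsg : ∀ b, ∃ g : M b.1 →ₗ[K] M j, g.baseChange ℂ = θ ∘ₗ LinearMap.single ℂ _ b := by
    intro b
    refine exists_rat_map hK _ fun σ x => ?_
    change θ (LinearMap.single ℂ _ b (sg (M b.1) σ x)) = sg (M j) σ (θ (LinearMap.single ℂ _ b x))
    rw [← hθσ]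
    congr 1
    funext b'
    rw [LinearMap.single_apply, LinearMap.single_apply]
    by_cases hb : b' = b
    · subst hb
      rw [Pi.single_eq_same, Pi.single_eq_same]
    · rw [Pi.single_eq_of_ne hb, Pi.single_eq_of_ne hb, map_zero]
  choose g hg using hsg
  refine ⟨g, fun b x => ?_, ?_⟩
  · rw [hg]
    change θ (LinearMap.single ℂ _ b (h b.1 x)) = h j (θ (LinearMap.single ℂ _ b x))
    rw [← hθh]
    congr 1
    funext b'
    rw [LinearMap.single_apply, LinearMap.single_apply]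
    by_cases hb : b' = b
    · subst hb
      rw [Pi.single_eq_same, Pi.single_eq_same]
    · rw [Pi.single_eq_of_ne hb, Pi.single_eq_of_ne hb, map_zero]
  · apply one_tmul_inj (K := K)
    rw [tmul_sum]
    have h1 : ∀ b, (1 : ℂ) ⊗ₜ[K] (g b (finBasis K (M b.1) b.2)) =
        θ (Pi.single b (1 ⊗ₜ[K] e b)) := by
      intro b
      have h2 := congrArg (fun f => f (1 ⊗ₜ[K] e b)) (hg b)
      rw [LinearMap.baseChange_tmul] at h2
      exact h2
    simp only [h1]
    rw [← map_sum, Finset.univ_sum_single]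
    exact hθ1 1

/-- **All the Hodge structures are direct summands of sums of finitely many of them.** -/
theorem exists_finite
    (hK : ∀ z : ℂ, (∀ σ : ℂ ≃ₐ[K] ℂ, σ z = z) → ∃ r : K, algebraMap K ℂ r = z)
    (hd : ∀ i, ∃ e, Dec ℂ l (h i) e) (hp : ∀ i, IsPol c (h i) (Q i))
    [Module.Finite ℂ (alg h)] :
    ∃ F : Finset ι, F.card ≤ finrank ℂ (alg h) ∧ ∀ j, ∃ (β : Type) (_ : Fintype β) (t : β → F)
      (g : ∀ b, M (t b) →ₗ[K] M j) (s : ∀ b, M j →ₗ[K] M (t b)),
      (∀ b, Mor (h (t b)) (h j) (g b)) ∧ (∀ b, Mor (h j) (h (t b)) (s b)) ∧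
        ∀ v, ∑ b, g b (s b v) = v := by
  obtain ⟨F, hF, hF0⟩ := exists_finset (finrank ℂ (alg h)) (Subalgebra.toSubmodule (alg h)) le_rfl
  refine ⟨F, hF, fun j => ?_⟩
  let q := finrank K (M j)
  choose g hg hgu using fun a : Fin q => exists_maps hK hd hp hF0 j (finBasis K (M j) a)
  let β := Fin q × (Σ i : F, Fin (finrank K (M i)))
  obtain ⟨s, hs, hgs⟩ := exists_section (ι := β) (V := fun b => M b.2.1) (h := fun b => h b.2.1)
    (Q := fun b => Q b.2.1) (N := M j) (hN := h j) hK (fun b => hd b.2.1) (fun b => hp b.2.1)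
    (fun b => g b.1 b.2) (fun b => hg b.1 b.2) (by
      intro v
      refine ⟨fun b => (finBasis K (M j)).repr v b.1 • finBasis K (M b.2.1) b.2.2, ?_⟩
      conv_rhs => rw [← (finBasis K (M j)).sum_repr v]
      rw [Fintype.sum_prod_type]
      refine Finset.sum_congr rfl fun a _ => ?_
      rw [← hgu a, Finset.smul_sum]
      exact Finset.sum_congr rfl fun b _ => map_smul _ _ _)
  exact ⟨β, inferInstance, fun b => b.2.1, fun b => g b.1 b.2, s, fun b => hg b.1 b.2, hs, hgs⟩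

end Pool.Agent.Q50.BL
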