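import Pool.Agent.Q60.HDS.Defs

/-!
# Hodge level and composition of correspondences: definitions
-/

open CategoryTheory AlgebraicGeometry

universe u

namespace Pool.Agent.Q50.BL

section Alg

variable {K A B C D : Type} [Field K] [Ring A] [Ring B] [Ring C] [Ring D] [Algebra K A]
  [Algebra K B] [Algebra K C] [Algebra K D]

/-- The element `r (p a · q b)`. -/
def pullPush (p : A →ₐ[K] C) (q : B →ₐ[K] C) (r : C →ₗ[K] D) (a : A) (b : B) : D := r (p a * q b)

/-- The linear combinations of the elements of the set `S`, with coefficients in `K`. -/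
def lin (K : Type) {A : Type} [Field K] [Ring A] [Algebra K A] (S : Set A) : Set A :=
  Submodule.span K S

end Alg

open Pool.Agent.H914 Pool.Agent.H914.VarClass Pool.Agent.H914.VarClass.Obj
  Pool.Agent.H914.WeilCohomology
open Pool.Agent.Y121.AHS
open Pool.Agent.Q60.HDS (HodgeConjectureFor power)

variable {k : Type u} [Field k] {𝒱 : VarClass k} {ops : CycleOps 𝒱}

/-- The Hodge level of `Z` is at most `l`: there are no nonzero classes of type `(p, q)` if
`|p - q| > l`. -/
def LevelLE (T : HodgeTheory ops) (Z : 𝒱.Obj) (l : ℕ) : Prop :=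
  ∀ (p q : ℤ) (x : HL T.W ℂ Z), (l : ℤ) < |p - q| → IsType T.pq p q x → x = 0

/-- The composition `pr₁₃₊ (pr₁₂^* c · pr₂₃^* d)` of the correspondences `c` on `X × Y` and `d` on
`Y × Z`, a class on `X × Z`. -/
noncomputable def compose (W : WeilCohomology.{u, 0} ops) (X Y Z : 𝒱.Obj) (c : W.H (X.prod Y))
    (d : W.H (Y.prod Z)) : W.H (X.prod Z) :=
  pullPush (W.map (p12 X Y Z)) (W.map (p23 X Y Z)) (W.push (p13 X Y Z)) c d

/-- The compositions of a Hodge class on `X × Y` and a Hodge class on `Y × Z`. -/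
def Composites (T : HodgeTheory ops) (X Y Z : 𝒱.Obj) : Set (T.W.H (X.prod Z)) :=
  {x | ∃ i j c d, IsHodge T (X.prod Y) i c ∧ IsHodge T (Y.prod Z) j d ∧
    x = compose T.W X Y Z c d}

/-- For all `n`, all Hodge classes on `Z × X ^ n` are linear combinations of compositions of a Hodge
class on `Z × X ^ m` and a Hodge class on `X ^ m × X ^ n`, with `m` in `M`. -/
def FactorThrough (T : HodgeTheory ops) (M : Finset ℕ) (Z X : 𝒱.Obj) : Prop :=
  ∀ n j c, IsHodge T (Z.prod (power X n)) j c →
    c ∈ lin T.W.K (⋃ m ∈ M, Composites T Z (power X m) (power X n))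

/-- The Hodge conjecture holds for `Z × X ^ n`, for all `n`. -/
def HodgeConjectureForProducts (T : HodgeTheory ops) (Z X : 𝒱.Obj) : Prop :=
  ∀ n, HodgeConjectureFor T (Z.prod (power X n))

end Pool.Agent.Q50.BL
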