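import Pool.Agent.Q50.BL.Pbw

/-!
# Algebras generated by diagonalizable elements with bounded integral eigenvalues

Let `D` be a finite-dimensional subspace of an algebra, closed under commutators, and let `S` be a
subset of `D` consisting of elements `x` with `∏ (x - j) = 0` (the product over `|j| ≤ l`). Then the
algebra generated by `S` has dimension at most `(2 l + 1) ^ dim D`.
-/

namespace Pool.Agent.Q50.BL

open Finset Polynomial

variable {K E : Type*} [Field K] [CharZero K] [Ring E] [Algebra K E] {l : ℕ}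

/-- The integers between `-l` and `l`. -/
noncomputable abbrev ivl (l : ℕ) : Finset ℤ := Finset.Icc (-(l : ℤ)) l

/-- The polynomial `∏ (t - j)`, the product over the integers `j` with `|j| ≤ l`. -/
noncomputable def nod (K : Type*) [Field K] (l : ℕ) : K[X] :=
  Lagrange.nodal (ivl l) fun j : ℤ => (j : K)

lemma inj_cast (s : Finset ℤ) : Set.InjOn (fun j : ℤ => (j : K)) s :=
  fun _ _ _ _ h => Int.cast_injective h

lemma ivl_nonempty : (ivl l).Nonempty := ⟨0, by simp⟩

/-- The idempotents `e j` decompose the algebra according to the eigenvalues of `x`. -/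
structure Dec (K : Type*) [Field K] [Algebra K E] (l : ℕ) (x : E) (e : ℤ → E) : Prop where
  sum : ∑ j ∈ ivl l, e j = 1
  left : ∀ j ∈ ivl l, x * e j = (j : K) • e j
  right : ∀ j ∈ ivl l, e j * x = (j : K) • e j

lemma exists_dec {x : E} (hx : aeval x (nod K l) = 0) : ∃ e, Dec K l x e := by
  have h0 : ∀ j ∈ ivl l, (X - C ((j : ℤ) : K)) * Lagrange.basis (ivl l) (fun j : ℤ => (j : K)) j =
      C (∏ i ∈ (ivl l).erase j, ((j : K) - i)⁻¹) * nod K l := by
    intro j hj
    rw [nod, Lagrange.nodal_eq, ← Finset.mul_prod_erase _ _ hj, Lagrange.basis]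
    simp only [Lagrange.basisDivisor]
    rw [Finset.prod_mul_distrib, map_prod]
    ring
  refine ⟨fun j => aeval x (Lagrange.basis (ivl l) (fun j : ℤ => (j : K)) j), ?_, ?_, ?_⟩
  · rw [← map_sum, Lagrange.sum_basis (inj_cast _) ivl_nonempty, map_one]
  · intro j hj
    have h1 := congrArg (aeval x) (h0 j hj)
    rw [map_mul, map_mul, hx, mul_zero, map_sub, aeval_X, aeval_C, sub_mul, sub_eq_zero,
      ← Algebra.smul_def] at h1
    exact h1
  · intro j hj
    have h1 := congrArg (aeval x) ((mul_comm _ _).trans (h0 j hj))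
    rw [map_mul, map_mul, hx, mul_zero, map_sub, aeval_X, aeval_C, mul_sub, sub_eq_zero,
      ← Algebra.commutes, ← Algebra.smul_def] at h1
    exact h1

namespace Dec

variable {x : E} {e : ℤ → E}

lemma orth (h : Dec K l x e) {i j : ℤ} (hi : i ∈ ivl l) (hj : j ∈ ivl l) (hij : i ≠ j) :
    e i * e j = 0 := by
  have h1 : (i : K) • (e i * e j) = (j : K) • (e i * e j) := by
    rw [← smul_mul_assoc, ← h.right i hi, mul_assoc, h.left j hj, mul_smul_comm]
  rw [← sub_eq_zero, ← sub_smul] at h1
  refine (smul_eq_zero.1 h1).resolve_left ?_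
  exact fun h2 => hij (Int.cast_injective (sub_eq_zero.1 h2))

lemma idem (h : Dec K l x e) {i : ℤ} (hi : i ∈ ivl l) : e i * e i = e i := by
  conv_rhs => rw [← mul_one (e i), ← h.sum, Finset.mul_sum]
  rw [Finset.sum_eq_single i (fun j hj hij => h.orth hi hj (Ne.symm hij))
    (fun h' => absurd hi h')]

lemma eq_sum (h : Dec K l x e) : x = ∑ j ∈ ivl l, (j : K) • e j := by
  conv_lhs => rw [← mul_one x, ← h.sum, Finset.mul_sum]
  exact Finset.sum_congr rfl fun j hj => h.left j hj

lemma aeval_mul (h : Dec K l x e) (p : K[X]) {j : ℤ} (hj : j ∈ ivl l) :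
    aeval x p * e j = p.eval (j : K) • e j := by
  induction p using Polynomial.induction_on with
  | C a => rw [aeval_C, eval_C, Algebra.smul_def]
  | add p q hp hq => rw [map_add, add_mul, hp, hq, eval_add, add_smul]
  | monomial n a ih =>
    rw [pow_succ, ← mul_assoc, map_mul, aeval_X, mul_assoc, h.left j hj, mul_smul_comm, ih,
      eval_mul (p := C a * X ^ n), eval_X, smul_smul, mul_comm]

lemma aeval_eq (h : Dec K l x e) (p : K[X]) : aeval x p = ∑ j ∈ ivl l, p.eval (j : K) • e j := by
  conv_lhs => rw [← mul_one (aeval x p), ← h.sum, Finset.mul_sum]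
  exact Finset.sum_congr rfl fun j hj => h.aeval_mul p hj

lemma aeval_nod (h : Dec K l x e) : aeval x (nod K l) = 0 := by
  rw [h.aeval_eq]
  refine Finset.sum_eq_zero fun j hj => ?_
  rw [nod, Lagrange.eval_nodal_at_node hj, zero_smul]

/-- The one-parameter group. -/
noncomputable def u (K : Type*) [Field K] [Algebra K E] (l : ℕ) (e : ℤ → E) (z : K) : E :=
  ∑ j ∈ ivl l, z ^ j • e j

lemma u_mul (h : Dec K l x e) {z : K} (hz : z ≠ 0) (w : K) :
    u K l e z * u K l e w = ∑ j ∈ ivl l, (z ^ j * w ^ j) • e j := by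
  rw [u, u, Finset.sum_mul]
  refine Finset.sum_congr rfl fun i hi => ?_
  rw [Finset.mul_sum, Finset.sum_eq_single i]
  · rw [smul_mul_smul_comm, h.idem hi]
  · intro j hj hji
    rw [smul_mul_smul_comm, h.orth hi hj (Ne.symm hji), smul_zero]
  · exact fun h' => absurd hi h'

lemma u_inv (h : Dec K l x e) {z : K} (hz : z ≠ 0) : u K l e z * u K l e z⁻¹ = 1 := by
  rw [h.u_mul hz, ← h.sum]
  refine Finset.sum_congr rfl fun j _ => ?_
  rw [← mul_zpow, mul_inv_cancel₀ hz, one_zpow, one_smul]

lemma inv_u (h : Dec K l x e) {z : K} (hz : z ≠ 0) : u K l e z⁻¹ * u K l e z = 1 := by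
  have := h.u_inv (inv_ne_zero hz)
  rwa [inv_inv] at this

/-- The conjugate. -/
lemma conj_eq (z : K) (hz : z ≠ 0) (y : E) : u K l e z * y * u K l e z⁻¹ =
    ∑ i ∈ ivl l, ∑ j ∈ ivl l, z ^ (i - j) • (e i * y * e j) := by
  rw [u, u, Finset.sum_mul, Finset.sum_mul]
  refine Finset.sum_congr rfl fun i _ => ?_
  rw [Finset.mul_sum]
  refine Finset.sum_congr rfl fun j _ => ?_
  rw [smul_mul_assoc, smul_mul_smul_comm, zpow_sub₀ hz, inv_zpow, div_eq_mul_inv]

/-- The conjugate of a decomposition. -/
lemma conj {y g g' : E} {f : ℤ → E} (h : Dec K l y f) (h1 : g * g' = 1) (h2 : g' * g = 1) :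
    Dec K l (g * y * g') fun j => g * f j * g' := by
  have h3 : ∀ a b : E, g * a * g' * (g * b * g') = g * (a * b) * g' := by
    intro a b
    calc g * a * g' * (g * b * g') = g * a * (g' * g) * b * g' := by noncomm_ring
      _ = _ := by rw [h2]; noncomm_ring
  refine ⟨?_, ?_, ?_⟩
  · rw [← Finset.sum_mul, ← Finset.mul_sum, h.sum, mul_one, h1]
  · intro j hj
    rw [h3, h.left j hj, mul_smul_comm, smul_mul_assoc]
  · intro j hj
    rw [h3, h.right j hj, mul_smul_comm, smul_mul_assoc]

/-- Powers of the adjoint operator. -/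
lemma ad_pow (h : Dec K l x e) (n : ℕ) (y : E) :
    ((LinearMap.mulLeft K x - LinearMap.mulRight K x : Module.End K E) ^ n) y =
      ∑ i ∈ ivl l, ∑ j ∈ ivl l, ((i - j : ℤ) : K) ^ n • (e i * y * e j) := by
  induction n with
  | zero =>
    simp only [pow_zero, one_smul, Module.End.one_apply]
    have h1 : y = (∑ i ∈ ivl l, e i) * y * ∑ j ∈ ivl l, e j := by
      rw [h.sum, one_mul, mul_one]
    conv_lhs => rw [h1]
    rw [Finset.sum_mul, Finset.sum_mul]
    exact Finset.sum_congr rfl fun i _ => Finset.mul_sum _ _ _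
  | succ n ih =>
    rw [pow_succ', Module.End.mul_apply, ih, map_sum]
    refine Finset.sum_congr rfl fun i hi => ?_
    rw [map_sum]
    refine Finset.sum_congr rfl fun j hj => ?_
    rw [map_smul, LinearMap.sub_apply, LinearMap.mulLeft_apply, LinearMap.mulRight_apply,
      ← mul_assoc, ← mul_assoc, h.left i hi, mul_assoc (e i * y), h.right j hj, smul_mul_assoc,
      smul_mul_assoc, mul_smul_comm, ← sub_smul, smul_smul, pow_succ]
    push_cast
    rfl

lemma ad_aeval (h : Dec K l x e) (p : K[X]) (y : E) :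
    (aeval (LinearMap.mulLeft K x - LinearMap.mulRight K x : Module.End K E) p) y =
      ∑ i ∈ ivl l, ∑ j ∈ ivl l, p.eval ((i - j : ℤ) : K) • (e i * y * e j) := by
  induction p using Polynomial.induction_on' with
  | add p q hp hq =>
    rw [map_add, LinearMap.add_apply, hp, hq]
    simp only [eval_add, add_smul, Finset.sum_add_distrib]
  | monomial n a =>
    rw [aeval_monomial, Module.End.mul_apply, h.ad_pow, Module.algebraMap_end_apply,
      Finset.smul_sum]
    refine Finset.sum_congr rfl fun i _ => ?_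
    rw [Finset.smul_sum]
    refine Finset.sum_congr rfl fun j _ => ?_
    rw [eval_monomial, smul_smul]

/-- A subspace which is closed under commutators with `x` is stable under the conjugation. -/
lemma conj_mem (h : Dec K l x e) {D : Submodule K E} (hD : ∀ y ∈ D, x * y - y * x ∈ D) {z : K}
    (hz : z ≠ 0) {y : E} (hy : y ∈ D) : u K l e z * y * u K l e z⁻¹ ∈ D := by
  obtain ⟨p, hp⟩ : ∃ p : K[X], ∀ m ∈ ivl (2 * l), p.eval ((m : ℤ) : K) = z ^ m :=
    ⟨Lagrange.interpolate (ivl (2 * l)) (fun j : ℤ => (j : K)) fun m => z ^ m, fun m hm =>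
      Lagrange.eval_interpolate_at_node _ (inj_cast _) hm⟩
  have h1 : u K l e z * y * u K l e z⁻¹ =
      (aeval (LinearMap.mulLeft K x - LinearMap.mulRight K x : Module.End K E) p) y := by
    rw [h.ad_aeval, conj_eq z hz]
    refine Finset.sum_congr rfl fun i hi => Finset.sum_congr rfl fun j hj => ?_
    rw [hp]
    rw [Finset.mem_Icc] at *
    push_cast
    constructor <;> omega
  rw [h1]
  clear h1 hp
  induction p using Polynomial.induction_on with
  | C a =>
    rw [aeval_C, Module.algebraMap_end_apply]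
    exact Submodule.smul_mem _ _ hy
  | add p q hp hq => rw [map_add]; exact Submodule.add_mem _ hp hq
  | monomial n a ih =>
    rw [pow_succ', ← mul_assoc, mul_comm (C a), mul_assoc, map_mul, aeval_X,
      Module.End.mul_apply, LinearMap.sub_apply]
    exact hD _ ih

/-- If a subspace contains all conjugates of `y` then it contains the commutator with `x`. -/
lemma bracket_mem (h : Dec K l x e) {D : Submodule K E} {y : E}
    (hD : ∀ z : K, z ≠ 0 → u K l e z * y * u K l e z⁻¹ ∈ D) : x * y - y * x ∈ D := by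
  by_contra hn
  obtain ⟨φ, hφ, hle⟩ := Submodule.exists_le_ker_of_notMem hn
  apply hφ
  let P : K[X] := ∑ i ∈ ivl l, ∑ j ∈ ivl l, monomial (i - j + 2 * l).toNat (φ (e i * y * e j))
  have hP : ∀ z : K, z ≠ 0 → P.eval z = 0 := by
    intro z hz
    have h1 : φ (u K l e z * y * u K l e z⁻¹) = 0 := hle (hD z hz)
    rw [conj_eq z hz, map_sum] at h1
    have h2 : P.eval z = z ^ (2 * l : ℤ) * ∑ i ∈ ivl l, φ (∑ j ∈ ivl l, z ^ (i - j) •
        (e i * y * e j)) := by
      rw [eval_finsetSum, Finset.mul_sum]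
      refine Finset.sum_congr rfl fun i hi => ?_
      rw [eval_finsetSum, map_sum, Finset.mul_sum]
      refine Finset.sum_congr rfl fun j hj => ?_
      rw [eval_monomial, map_smul, smul_eq_mul, ← mul_assoc, ← zpow_add₀ hz, ← zpow_natCast,
        mul_comm]
      congr 2
      rw [Int.toNat_of_nonneg]
      · ring
      · rw [Finset.mem_Icc] at hi hj
        omega
    rw [h2, h1, mul_zero]
  have hP0 : P = 0 := by
    apply Polynomial.eq_zero_of_infinite_isRoot
    have h1 : ({0}ᶜ : Set K) ⊆ {z | P.IsRoot z} := fun z hz => hP z hz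
    exact (Set.Finite.infinite_compl (Set.finite_singleton 0)).mono h1
  have h3 : (derivative P).eval 1 - 2 * l * P.eval 1 = φ (x * y - y * x) := by
    have h4 := h.ad_pow 1 y
    rw [pow_one, LinearMap.sub_apply, LinearMap.mulLeft_apply, LinearMap.mulRight_apply] at h4
    have e1 : (derivative P).eval 1 = ∑ i ∈ ivl l, ∑ j ∈ ivl l,
        φ (e i * y * e j) * ((i - j + 2 * l).toNat : ℕ) := by
      simp only [P, map_sum, eval_finsetSum, derivative_monomial, eval_monomial, one_pow, mul_one]
    have e2 : P.eval 1 = ∑ i ∈ ivl l, ∑ j ∈ ivl l, φ (e i * y * e j) := by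
      simp only [P, eval_finsetSum, eval_monomial, one_pow, mul_one]
    rw [h4, e1, e2, map_sum, Finset.mul_sum, ← Finset.sum_sub_distrib]
    refine Finset.sum_congr rfl fun i hi => ?_
    rw [map_sum, Finset.mul_sum, ← Finset.sum_sub_distrib]
    refine Finset.sum_congr rfl fun j hj => ?_
    rw [pow_one, map_smul, smul_eq_mul]
    have h5 : (((i - j + 2 * l).toNat : ℕ) : K) = (i : K) - j + 2 * l := by
      have h6 : (((i - j + 2 * l).toNat : ℕ) : ℤ) = i - j + 2 * l := by
        rw [Int.toNat_of_nonneg]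
        rw [Finset.mem_Icc] at hi hj
        omega
      have h7 := congrArg (fun n : ℤ => (n : K)) h6
      push_cast at h7
      simpa using h7
    rw [h5]
    push_cast
    ring
  rw [← h3, hP0]
  simp

end Dec

/-- The conjugates of the elements of `S` under the group generated by them. -/
inductive Cnj (K : Type*) [Field K] [Algebra K E] (l : ℕ) (S : Set E) : E → Prop
  | base {x : E} : x ∈ S → Cnj K l S x
  | conj {x y : E} {e : ℤ → E} {z : K} : Cnj K l S x → Cnj K l S y → Dec K l x e → z ≠ 0 →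
      Cnj K l S (Dec.u K l e z * y * Dec.u K l e z⁻¹)

variable {S : Set E}

lemma Cnj.exists_dec (hS : ∀ x ∈ S, ∃ e, Dec K l x e) {x : E} (hx : Cnj K l S x) :
    ∃ e, Dec K l x e := by
  induction hx with
  | base h => exact hS _ h
  | conj _ _ hd hz _ ih =>
    obtain ⟨f, hf⟩ := ih
    exact ⟨_, hf.conj (hd.u_inv hz) (hd.inv_u hz)⟩

lemma Cnj.mem {D : Submodule K E} (hD : ∀ x ∈ D, ∀ y ∈ D, x * y - y * x ∈ D)
    (hS : ∀ x ∈ S, x ∈ D) {x : E} (hx : Cnj K l S x) : x ∈ D := by
  induction hx with
  | base h => exact hS _ h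
  | conj _ _ hd hz ihx ihy => exact hd.conj_mem (hD _ ihx) hz ihy

/-- The span of the conjugates is closed under commutators. -/
lemma Cnj.bracket (hS : ∀ x ∈ S, ∃ e, Dec K l x e) {x y : E} (hx : Cnj K l S x)
    (hy : Cnj K l S y) : x * y - y * x ∈ Submodule.span K {y | Cnj K l S y} := by
  obtain ⟨e, he⟩ := hx.exists_dec hS
  exact he.bracket_mem fun z hz => Submodule.subset_span (Cnj.conj hx hy he hz)

/-- Integrality. -/
lemma Dec.pow_mem {x : E} {e : ℤ → E} (h : Dec K l x e) :
    x ^ (2 * l + 1) ∈ Submodule.span K ((fun j => x ^ j) '' Set.Iio (2 * l + 1)) := by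
  have hm : (nod K l).Monic := Lagrange.nodal_monic
  have hdeg : (nod K l).natDegree = 2 * l + 1 := by
    rw [nod, Lagrange.natDegree_nodal, Int.card_Icc]
    omega
  have h1 := h.aeval_nod
  rw [aeval_eq_sum_range, Finset.sum_range_succ, hm.coeff_natDegree, one_smul, hdeg] at h1
  rw [← eq_neg_iff_add_eq_zero, ← neg_eq_iff_eq_neg] at h1
  rw [← h1]
  refine Submodule.neg_mem _ (Submodule.sum_mem _ fun i hi => Submodule.smul_mem _ _ ?_)
  exact Submodule.subset_span ⟨i, Finset.mem_range.1 hi, rfl⟩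

/-- **The algebra generated by `S` is finite-dimensional.** -/
theorem finite_adjoin_set {D : Submodule K E} [FiniteDimensional K D]
    (hD : ∀ x ∈ D, ∀ y ∈ D, x * y - y * x ∈ D) (hSD : ∀ x ∈ S, x ∈ D)
    (hS : ∀ x ∈ S, ∃ e, Dec K l x e) :
    Module.Finite K (Algebra.adjoin K S) ∧
      Module.finrank K (Algebra.adjoin K S) ≤ (2 * l + 1) ^ Module.finrank K D := by
  have hle : Submodule.span K {y | Cnj K l S y} ≤ D :=
    Submodule.span_le.2 fun y hy => Cnj.mem hD hSD hy
  have hfd : FiniteDimensional K (Submodule.span K {y | Cnj K l S y}) :=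
    Submodule.finiteDimensional_of_le hle
  obtain ⟨b, hbs, hbspan, hbli⟩ := exists_linearIndependent K {y | Cnj K l S y}
  have hle' : b ⊆ {y | Cnj K l S y} := hbs
  have hbD : Submodule.span K b ≤ D := by rw [hbspan]; exact hle
  have h2 : LinearIndependent K (fun x : b => (⟨x, hbD (Submodule.subset_span x.2)⟩ : D)) :=
    LinearIndependent.of_comp D.subtype hbli
  have hfin : Finite b := h2.finite
  have hft : Fintype b := Fintype.ofFinite b
  obtain ⟨r, ⟨eq⟩⟩ := Finite.exists_equiv_fin b
  let x : Fin r → E := fun i => (eq.symm i : E)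
  have hrange : Set.range x = b := by
    ext y
    constructor
    · rintro ⟨i, rfl⟩; exact (eq.symm i).2
    · intro hy; exact ⟨eq ⟨y, hy⟩, by simp [x]⟩
  have hr : r ≤ Module.finrank K D := by
    have h3 := h2.fintype_card_le_finrank
    rwa [Fintype.card_congr eq, Fintype.card_fin] at h3
  have hc : ∀ i, Cnj K l S (x i) := fun i => hle' (eq.symm i).2
  have hbr : ∀ i j, x i * x j - x j * x i ∈ Submodule.span K (Set.range x) := by
    intro i j
    rw [hrange, hbspan]
    exact Cnj.bracket hS (hc i) (hc j)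
  have hint : ∀ i, x i ^ (2 * l + 1) ∈
      Submodule.span K ((fun j => x i ^ j) '' Set.Iio (2 * l + 1)) := by
    intro i
    obtain ⟨e, he⟩ := (hc i).exists_dec hS
    exact he.pow_mem
  obtain ⟨h3, h4⟩ := finite_adjoin hbr hint
  have h5 : Algebra.adjoin K S ≤ Algebra.adjoin K (Set.range x) := by
    apply Algebra.adjoin_le
    intro y hy
    have h6 : y ∈ Submodule.span K (Set.range x) := by
      rw [hrange, hbspan]
      exact Submodule.subset_span (Cnj.base hy)
    exact Algebra.span_le_adjoin K _ h6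
  have h7 : Subalgebra.toSubmodule (Algebra.adjoin K S) ≤
      Subalgebra.toSubmodule (Algebra.adjoin K (Set.range x)) := h5
  have h8 : FiniteDimensional K (Subalgebra.toSubmodule (Algebra.adjoin K (Set.range x))) := h3
  refine ⟨Submodule.finiteDimensional_of_le h7, ?_⟩
  calc Module.finrank K (Algebra.adjoin K S)
      ≤ Module.finrank K (Algebra.adjoin K (Set.range x)) := Submodule.finrank_mono h7
    _ ≤ (2 * l + 1) ^ r := h4
    _ ≤ _ := Nat.pow_le_pow_right (by omega) hr

end Pool.Agent.Q50.BL
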