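import Pool.Agent.Q50.BL.Fam

/-!
# Factorisation of Hodge classes through finitely many powers
-/

open CategoryTheory AlgebraicGeometry TensorProduct

universe u

namespace Pool.Agent.Q50.BL

open Module Polynomial
open Pool.Agent.H914 Pool.Agent.H914.VarClass Pool.Agent.H914.VarClass.Obj
  Pool.Agent.H914.WeilCohomology
open Pool.Agent.Y133.Half
open Pool.Agent.Y121

section Gen

variable {K : Type} [Field K] [Algebra K ℂ] {V N : Type*} [AddCommGroup V] [Module K V]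
  [AddCommGroup N] [Module K N]

lemma baseChange_surj {f : V →ₗ[K] N} (hf : Function.Surjective f) :
    Function.Surjective (f.baseChange ℂ) := LinearMap.lTensor_surjective ℂ hf

/-- The Hodge structure on the image. -/
lemma exists_image {hV : Module.End ℂ (ℂ ⊗[K] V)} {hN : Module.End ℂ (ℂ ⊗[K] N)}
    {f : V →ₗ[K] N} (hf : Mor hV hN f) :
    ∃ h : Module.End ℂ (ℂ ⊗[K] LinearMap.range f),
      (∀ v, (LinearMap.range f).subtype.baseChange ℂ (h v) =
        hN ((LinearMap.range f).subtype.baseChange ℂ v)) ∧ Mor hV h f.rangeRestrict := by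
  obtain ⟨r, hr⟩ := (LinearMap.range f).subtype.exists_leftInverse_of_injective
    (LinearMap.ker_eq_bot.2 (LinearMap.range f).injective_subtype)
  have h0 : ∀ w : ℂ ⊗[K] V, (LinearMap.range f).subtype.baseChange ℂ
      (f.rangeRestrict.baseChange ℂ w) = f.baseChange ℂ w := by
    intro w
    rw [← LinearMap.comp_apply, ← LinearMap.baseChange_comp]
    rfl
  have hr' : ∀ v : ℂ ⊗[K] LinearMap.range f, r.baseChange ℂ
      ((LinearMap.range f).subtype.baseChange ℂ v) = v := by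
    intro v
    rw [← LinearMap.comp_apply, ← LinearMap.baseChange_comp, hr, LinearMap.baseChange_id]
    rfl
  have h2 : ∀ w : ℂ ⊗[K] V, (r.baseChange ℂ ∘ₗ hN ∘ₗ (LinearMap.range f).subtype.baseChange ℂ)
      (f.rangeRestrict.baseChange ℂ w) = f.rangeRestrict.baseChange ℂ (hV w) := by
    intro w
    rw [LinearMap.comp_apply, LinearMap.comp_apply, h0, ← hf, ← h0, hr']
  refine ⟨r.baseChange ℂ ∘ₗ hN ∘ₗ (LinearMap.range f).subtype.baseChange ℂ, fun v => ?_,
    fun w => (h2 w).symm⟩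
  obtain ⟨w, rfl⟩ := baseChange_surj f.surjective_rangeRestrict v
  rw [h2, h0, h0, hf]

lemma Mor.comp {P : Type*} [AddCommGroup P] [Module K P] {hV : Module.End ℂ (ℂ ⊗[K] V)}
    {hN : Module.End ℂ (ℂ ⊗[K] N)} {hP : Module.End ℂ (ℂ ⊗[K] P)} {f : V →ₗ[K] N}
    {g : N →ₗ[K] P} (hg : Mor hN hP g) (hf : Mor hV hN f) : Mor hV hP (g ∘ₗ f) := by
  intro x
  rw [LinearMap.baseChange_comp, LinearMap.comp_apply, LinearMap.comp_apply, hf, hg]

end Gen

variable {k : Type u} [Field k] {𝒱 : VarClass k} {ops : CycleOps 𝒱} {T : AH.HodgeTheory ops}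
  {X Y Z : 𝒱.Obj} {l : ℕ}

/-- **Factorisation of the morphisms of Hodge structures.** -/
theorem exists_factor {c : ℂ ≃ₐ[T.W.K] ℂ} (hT : PolH T c) (X : 𝒱.Obj) (l : ℕ) :
    ∃ M : Finset ℕ, M.card ≤ (2 * l + 1) ^ (finrank T.W.K (T.W.H X) ^ 2) ∧
      ∀ Z : 𝒱.Obj, Lev T Z l → ∀ n, ∀ u ∈ (AH.hodgeSys T).Op Z (pw X n),
        ∃ (β : Type) (_ : Fintype β) (m : β → ℕ)
          (G : ∀ b, T.W.H (pw X (m b)) →ₗ[T.W.K] T.W.H (pw X n))
          (w : ∀ b, T.W.H Z →ₗ[T.W.K] T.W.H (pw X (m b))),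
          (∀ b, m b ∈ M) ∧ (∀ b, G b ∈ (AH.hodgeSys T).Op (pw X (m b)) (pw X n)) ∧
          (∀ b, w b ∈ (AH.hodgeSys T).Op Z (pw X (m b))) ∧ u = ∑ b, G b ∘ₗ w b := by
  classical
  obtain ⟨F, hF, hfac⟩ := exists_exponents hT X l
  refine ⟨F.image fun i => i.n, Finset.card_image_le.trans hF, fun Z hZ n u hu => ?_⟩
  have hu' := mor_of_op hu
  obtain ⟨h, hh1, hh2⟩ := exists_image hu'
  have hlev : aeval h (nod ℂ l) = 0 := by
    apply LinearMap.ext
    intro v
    obtain ⟨w, rfl⟩ := baseChange_surj u.surjective_rangeRestrict v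
    rw [← aeval_comm (f := u.rangeRestrict.baseChange ℂ) hh2, hZ.nod, LinearMap.zero_apply,
      LinearMap.zero_apply, map_zero]
  let j : SubHS T X l := ⟨n, LinearMap.range u, h, hh1, hlev⟩
  obtain ⟨β, hβ, t, g, s, hg, hs, hgs⟩ := hfac j
  obtain ⟨Q, hQ⟩ : ∃ Q : ∀ Y : 𝒱.Obj, LinearMap.BilinForm T.W.K (T.W.H Y),
      ∀ Y, IsPol c (hop T Y) (Q Y) := by
    choose Q hQ using exists_pol hT
    exact ⟨Q, hQ⟩
  have hret : ∀ i : SubHS T X l, ∃ ρ : T.W.H (pw X i.n) →ₗ[T.W.K] i.S,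
      Mor (hop T (pw X i.n)) i.h ρ ∧ ∀ m, ρ (i.S.subtype m) = m := by
    intro i
    obtain ⟨L, hL⟩ := exists_lev T (pw X i.n)
    exact exists_retraction (fun z hz => fixed_mem z hz) (exists_dec hL.nod)
      (hQ (pw X i.n)) i.S.subtype i.S.injective_subtype fun v => i.comm v
  choose ρ hρ1 hρ2 using hret
  refine ⟨β, hβ, fun b => (t b).1.n, fun b => (LinearMap.range u).subtype ∘ₗ g b ∘ₗ ρ (t b).1,
    fun b => (t b).1.S.subtype ∘ₗ s b ∘ₗ u.rangeRestrict, fun b => ?_, fun b => ?_, fun b => ?_,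
    ?_⟩
  · exact Finset.mem_image_of_mem _ (t b).2
  · apply op_of_mor
    have e1 : Mor j.h (hop T (pw X n)) (LinearMap.range u).subtype := fun v => hh1 v
    exact e1.comp ((hg b).comp (hρ1 (t b).1))
  · apply op_of_mor
    have e1 : Mor (t b).1.h (hop T (pw X (t b).1.n)) (t b).1.S.subtype := fun v => (t b).1.comm v
    exact e1.comp ((hs b).comp hh2)
  · apply LinearMap.ext
    intro z
    rw [LinearMap.sum_apply]
    have e1 := hgs (u.rangeRestrict z)
    have e2 := congrArg (LinearMap.range u).subtype e1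
    rw [map_sum] at e2
    have e3 : (LinearMap.range u).subtype (u.rangeRestrict z) = u z := rfl
    have e4 : (LinearMap.range u).subtype (u.rangeRestrict z) =
      ∑ b, ((LinearMap.range u).subtype ∘ₗ g b ∘ₗ ρ (t b).1)
        (((t b).1.S.subtype ∘ₗ s b ∘ₗ u.rangeRestrict) z) := by
      refine e2.symm.trans (Finset.sum_congr rfl fun b _ => ?_)
      rw [LinearMap.comp_apply, LinearMap.comp_apply, LinearMap.comp_apply,
        LinearMap.comp_apply, hρ2]
    exact e3.symm.trans e4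

end Pool.Agent.Q50.BL
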