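import Pool.Agent.Q50.BL.PolX

/-!
# The Hodge substructures of bounded level of the cohomology of the powers of a variety
-/

open CategoryTheory AlgebraicGeometry TensorProduct

universe u

namespace Pool.Agent.Q50.BL

open Module Polynomial
open Pool.Agent.H914 Pool.Agent.H914.VarClass Pool.Agent.H914.VarClass.Obj
  Pool.Agent.H914.WeilCohomology
open Pool.Agent.Y133.Half
open Pool.Agent.Y121

variable {k : Type u} [Field k] {𝒱 : VarClass k} {ops : CycleOps 𝒱}

section Gen

variable {K : Type} [Field K] [Algebra K ℂ] {V M : Type*} [AddCommGroup V] [Module K V]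
  [AddCommGroup M] [Module K M]

lemma baseChange_inj {i : M →ₗ[K] V} (hi : Function.Injective i) :
    Function.Injective (i.baseChange ℂ) :=
  Module.Flat.lTensor_preserves_injective_linearMap (M := ℂ) i hi

/-- The restriction of a polarization. -/
lemma IsPol.restrict {c : ℂ ≃ₐ[K] ℂ} {h : Module.End ℂ (ℂ ⊗[K] V)} {Q : LinearMap.BilinForm K V}
    (hp : IsPol c h Q) {i : M →ₗ[K] V} (hi : Function.Injective i)
    {hM : Module.End ℂ (ℂ ⊗[K] M)}
    (him : ∀ v, i.baseChange ℂ (hM v) = h (i.baseChange ℂ v)) :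
    IsPol c hM (Q.compl₁₂ i i) := by
  have hQ : ∀ x y, QC (Q.compl₁₂ i i) x y = QC Q (i.baseChange ℂ x) (i.baseChange ℂ y) := by
    intro x y
    induction x using TensorProduct.induction_on with
    | zero => simp
    | add x x' hx hx' =>
      rw [map_add, LinearMap.add_apply, hx, hx', map_add, map_add, LinearMap.add_apply]
    | tmul z v =>
      induction y using TensorProduct.induction_on with
      | zero => simp
      | add y y' hy hy' =>
        rw [map_add, hy, hy', map_add, map_add]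
      | tmul w v' =>
        rw [QC_tmul, LinearMap.baseChange_tmul, LinearMap.baseChange_tmul, QC_tmul,
          LinearMap.compl₁₂_apply]
  refine ⟨fun x y => ?_, fun x => ?_, fun j x hx hne => ?_⟩
  · rw [hQ, hQ, him, him, hp.skew]
  · apply baseChange_inj hi
    rw [him, sg_baseChange, hp.conj, map_neg, sg_baseChange, him]
  · rw [hQ, sg_baseChange]
    refine hp.pos j _ ?_ ?_
    · rw [← him, hx, map_smul]
    · intro h0
      apply hne
      apply baseChange_inj hi
      rw [h0, map_zero]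

lemma aeval_comm {V V' : Type*} [AddCommGroup V] [Module ℂ V] [AddCommGroup V'] [Module ℂ V']
    {f : V →ₗ[ℂ] V'} {h : Module.End ℂ V} {h' : Module.End ℂ V'} (hf : ∀ x, f (h x) = h' (f x))
    (p : ℂ[X]) (x : V) : f (aeval h p x) = aeval h' p (f x) := by
  induction p using Polynomial.induction_on with
  | C a => rw [aeval_C, aeval_C, Module.algebraMap_end_apply, Module.algebraMap_end_apply,
      map_smul]
  | add p q hp hq => rw [map_add, map_add, LinearMap.add_apply, map_add, hp, hq,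
      LinearMap.add_apply]
  | monomial n a ih =>
    have e : (C a * X ^ (n + 1) : ℂ[X]) = X * (C a * X ^ n) := by ring
    rw [e, map_mul (aeval h), map_mul (aeval h'), aeval_X, aeval_X,
      Module.End.mul_apply, Module.End.mul_apply, hf, ih]

end Gen

/-- The Hodge substructures of level at most `l` of the cohomology of the powers of `X`. -/
structure SubHS (T : AH.HodgeTheory ops) (X : 𝒱.Obj) (l : ℕ) : Type where
  /-- the exponent -/
  n : ℕ
  /-- the subspace -/
  S : Submodule T.W.K (T.W.H (pw X n))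
  /-- the Hodge operator -/
  h : Module.End ℂ (ℂ ⊗[T.W.K] S)
  comm : ∀ v, S.subtype.baseChange ℂ (h v) = hop T (pw X n) (S.subtype.baseChange ℂ v)
  lev : aeval h (nod ℂ l) = 0

variable {T : AH.HodgeTheory ops} {X Y Z : 𝒱.Obj} {l : ℕ}

/-- The operator `w` on the cohomology of the product is determined by `u` and `v` by the Leibniz
rule. -/
def LeiR (u : Module.End ℂ (CH T X)) (v : Module.End ℂ (CH T Y))
    (w : Module.End ℂ (CH T (X.prod Y))) : Prop :=
  ∀ (a : CH T X) (b : CH T Y), w (mp T (fst X Y) a * mp T (snd X Y) b) =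
    mp T (fst X Y) (u a) * mp T (snd X Y) b + mp T (fst X Y) a * mp T (snd X Y) (v b)

lemma kun_ind {p : CH T (X.prod Y) → Prop} (h0 : p 0) (hadd : ∀ x y, p x → p y → p (x + y))
    (h : ∀ a b, p (mp T (fst X Y) a * mp T (snd X Y) b)) (x : CH T (X.prod Y)) : p x := by
  induction x using TensorProduct.induction_on with
  | zero => exact h0
  | add x y hx hy => exact hadd x y hx hy
  | tmul z c =>
    refine T.W.kunneth_induction (p := fun c => p (z ⊗ₜ[T.W.K] c)) ?_ ?_ c
    · intro a b ha hb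
      rw [tmul_add]
      exact hadd _ _ ha hb
    · intro i j a _ b _
      have h1 := h (z ⊗ₜ[T.W.K] a) (1 ⊗ₜ[T.W.K] b)
      rw [mp_tmul, mp_tmul, Algebra.TensorProduct.tmul_mul_tmul, mul_one] at h1
      exact h1

lemma LeiR.eq_zero {w : Module.End ℂ (CH T (X.prod Y))} (h : LeiR (X := X) (Y := Y) 0 0 w) :
    w = 0 := by
  apply LinearMap.ext
  intro x
  rw [LinearMap.zero_apply]
  refine kun_ind (p := fun x => w x = 0) (map_zero _) ?_ ?_ x
  · intro a b ha hb; rw [map_add, ha, hb, add_zero]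
  · intro a b
    rw [h, LinearMap.zero_apply, LinearMap.zero_apply, map_zero, map_zero, zero_mul, mul_zero,
      add_zero]

lemma LeiR.zero : LeiR (T := T) (X := X) (Y := Y) 0 0 0 := by
  intro a b
  rw [LinearMap.zero_apply, LinearMap.zero_apply, LinearMap.zero_apply, map_zero, map_zero,
    zero_mul, mul_zero, add_zero]

lemma LeiR.add {u u' : Module.End ℂ (CH T X)} {v v' : Module.End ℂ (CH T Y)}
    {w w' : Module.End ℂ (CH T (X.prod Y))} (h : LeiR u v w) (h' : LeiR u' v' w') :
    LeiR (u + u') (v + v') (w + w') := by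
  intro a b
  rw [LinearMap.add_apply, LinearMap.add_apply, LinearMap.add_apply, h, h', map_add, map_add,
    add_mul, mul_add]
  abel

lemma LeiR.sub {u u' : Module.End ℂ (CH T X)} {v v' : Module.End ℂ (CH T Y)}
    {w w' : Module.End ℂ (CH T (X.prod Y))} (h : LeiR u v w) (h' : LeiR u' v' w') :
    LeiR (u - u') (v - v') (w - w') := by
  intro a b
  rw [LinearMap.sub_apply, LinearMap.sub_apply, LinearMap.sub_apply, h, h', map_sub, map_sub,
    sub_mul, mul_sub]
  abel

lemma LeiR.smul (z : ℂ) {u : Module.End ℂ (CH T X)} {v : Module.End ℂ (CH T Y)}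
    {w : Module.End ℂ (CH T (X.prod Y))} (h : LeiR u v w) :
    LeiR (z • u) (z • v) (z • w) := by
  intro a b
  rw [LinearMap.smul_apply, LinearMap.smul_apply, LinearMap.smul_apply, h, map_smul, map_smul,
    smul_mul_assoc, mul_smul_comm, smul_add]

lemma LeiR.bracket {u u' : Module.End ℂ (CH T X)} {v v' : Module.End ℂ (CH T Y)}
    {w w' : Module.End ℂ (CH T (X.prod Y))} (h : LeiR u v w) (h' : LeiR u' v' w') :
    LeiR (u * u' - u' * u) (v * v' - v' * v) (w * w' - w' * w) := by
  intro a b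
  simp only [LinearMap.sub_apply, Module.End.mul_apply]
  rw [h, h', map_add, map_add, h, h, h', h', map_sub, map_sub, sub_mul, mul_sub]
  abel

/-- Families of operators on the cohomology of the powers of `X` which are determined by the first
one by the Leibniz rule. -/
def Lei (x : ∀ n, Module.End ℂ (CH T (pw X n))) : Prop :=
  ∀ n, LeiR (X := pw X n) (Y := X) (x n) (x 0) (x (n + 1))

lemma Lei.zero_of {x : ∀ n, Module.End ℂ (CH T (pw X n))} (hx : Lei x) (h0 : x 0 = 0) :
    ∀ n, x n = 0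
  | 0 => h0
  | n + 1 => by
    have h1 : LeiR (X := pw X n) (Y := X) (x n) (x 0) (x (n + 1)) := hx n
    rw [hx.zero_of h0 n, h0] at h1
    exact LeiR.eq_zero h1

variable (T X l)

/-- The family `y` of operators on the Hodge substructures of bounded level is the restriction of
the family `x`. -/
def Rst (x : ∀ n, Module.End ℂ (CH T (pw X n)))
    (y : ∀ i : SubHS T X l, Module.End ℂ (ℂ ⊗[T.W.K] i.S)) : Prop :=
  ∀ (i : SubHS T X l) (v : ℂ ⊗[T.W.K] i.S), i.S.subtype.baseChange ℂ (y i v) =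
    x i.n (i.S.subtype.baseChange ℂ v)

/-- The pairs of a family of operators on the cohomology of the powers and of the restrictions to
the Hodge substructures of bounded level. -/
noncomputable def pairs : Submodule ℂ ((∀ n, Module.End ℂ (CH T (pw X n))) ×
    (∀ i : SubHS T X l, Module.End ℂ (ℂ ⊗[T.W.K] i.S))) where
  carrier := {xy | Lei xy.1 ∧ Rst T X l xy.1 xy.2}
  zero_mem' := by
    refine ⟨fun n => LeiR.zero, fun i v => ?_⟩
    change i.S.subtype.baseChange ℂ ((0 : Module.End ℂ (ℂ ⊗[T.W.K] i.S)) v) =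
      (0 : Module.End ℂ (CH T (pw X i.n))) _
    rw [LinearMap.zero_apply, LinearMap.zero_apply, map_zero]
  add_mem' := by
    rintro ⟨x, y⟩ ⟨x', y'⟩ ⟨h1, h2⟩ ⟨h1', h2'⟩
    refine ⟨fun n => LeiR.add (h1 n) (h1' n), fun i v => ?_⟩
    have e1 : i.S.subtype.baseChange ℂ (y i v) = x i.n (i.S.subtype.baseChange ℂ v) := h2 i v
    have e2 : i.S.subtype.baseChange ℂ (y' i v) = x' i.n (i.S.subtype.baseChange ℂ v) := h2' i v
    change i.S.subtype.baseChange ℂ (y i v + y' i v) = x i.n _ + x' i.n _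
    rw [map_add, e1, e2]
  smul_mem' := by
    rintro z ⟨x, y⟩ ⟨h1, h2⟩
    refine ⟨fun n => LeiR.smul z (h1 n), fun i v => ?_⟩
    have e1 : i.S.subtype.baseChange ℂ (y i v) = x i.n (i.S.subtype.baseChange ℂ v) := h2 i v
    change i.S.subtype.baseChange ℂ (z • y i v) = z • x i.n _
    rw [map_smul, e1]

/-- The first component of the family. -/
noncomputable def ev0 : pairs T X l →ₗ[ℂ] Module.End ℂ (CH T (pw X 0)) where
  toFun p := p.1.1 0
  map_add' _ _ := rfl
  map_smul' _ _ := rfl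

lemma ev0_zero (p : pairs T X l) (h0 : ev0 T X l p = 0) : p = 0 := by
  obtain ⟨⟨x, y⟩, h1, h2⟩ := p
  have h1' : Lei x := h1
  have h3 : ∀ n, x n = 0 := Lei.zero_of h1' h0
  have h4 : x = 0 := funext h3
  have h5 : y = 0 := by
    funext i
    apply LinearMap.ext
    intro v
    apply baseChange_inj i.S.injective_subtype
    have e1 : i.S.subtype.baseChange ℂ (y i v) = x i.n (i.S.subtype.baseChange ℂ v) := h2 i v
    rw [e1, h3, LinearMap.zero_apply]
    exact (map_zero _).symm
  subst h4 h5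
  rfl

lemma ev0_inj : Function.Injective (ev0 T X l) := by
  intro p q hpq
  have h1 : ev0 T X l (p - q) = 0 := by
    change p.1.1 0 - q.1.1 0 = 0
    exact sub_eq_zero.2 hpq
  exact sub_eq_zero.1 (ev0_zero T X l _ h1)

instance finite_pairs : Module.Finite ℂ (pairs T X l) :=
  Module.Finite.of_injective (ev0 T X l) (ev0_inj T X l)

lemma finrank_pairs : finrank ℂ (pairs T X l) ≤ finrank T.W.K (T.W.H X) ^ 2 := by
  have h1 := LinearMap.finrank_le_finrank_of_injective (ev0_inj T X l)
  have e : finrank ℂ (CH T (pw X 0)) = finrank T.W.K (T.W.H (pw X 0)) := Module.finrank_baseChange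
  rw [Module.finrank_linearMap, e, ← sq] at h1
  exact h1

/-- The restrictions to the Hodge substructures. -/
noncomputable def restr :
    Submodule ℂ (∀ i : SubHS T X l, Module.End ℂ (ℂ ⊗[T.W.K] i.S)) :=
  (pairs T X l).map (LinearMap.snd ℂ _ _)

instance finite_restr : FiniteDimensional ℂ (restr T X l) :=
  inferInstanceAs (Module.Finite ℂ ((pairs T X l).map (LinearMap.snd ℂ _ _)))

lemma finrank_restr : finrank ℂ (restr T X l) ≤ finrank T.W.K (T.W.H X) ^ 2 :=
  (Submodule.finrank_map_le _ _).trans (finrank_pairs T X l)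

variable {T X l}

lemma mem_restr {y : ∀ i : SubHS T X l, Module.End ℂ (ℂ ⊗[T.W.K] i.S)} :
    y ∈ restr T X l ↔ ∃ x : ∀ n, Module.End ℂ (CH T (pw X n)), Lei x ∧ Rst T X l x y := by
  constructor
  · rintro ⟨⟨x, y'⟩, ⟨h1, h2⟩, rfl⟩
    exact ⟨x, h1, h2⟩
  · rintro ⟨x, h1, h2⟩
    exact ⟨(x, y), ⟨h1, h2⟩, rfl⟩

lemma restr_bracket {y y' : ∀ i : SubHS T X l, Module.End ℂ (ℂ ⊗[T.W.K] i.S)}
    (hy : y ∈ restr T X l) (hy' : y' ∈ restr T X l) : y * y' - y' * y ∈ restr T X l := by
  obtain ⟨x, h1, h2⟩ := mem_restr.1 hy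
  obtain ⟨x', h1', h2'⟩ := mem_restr.1 hy'
  refine mem_restr.2 ⟨x * x' - x' * x, fun n => LeiR.bracket (h1 n) (h1' n), fun i v => ?_⟩
  change i.S.subtype.baseChange ℂ (y i (y' i v) - y' i (y i v)) =
    x i.n (x' i.n _) - x' i.n (x i.n _)
  rw [map_sub, h2, h2', h2', h2]

lemma sg_mulC (σ : ℂ ≃ₐ[T.W.K] ℂ) (x y : CH T X) :
    sg (T.W.H X) σ (x * y) = sg (T.W.H X) σ x * sg (T.W.H X) σ y := by
  induction x using TensorProduct.induction_on with
  | zero => rw [zero_mul, map_zero, zero_mul]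
  | add x x' hx hx' => rw [add_mul, map_add, hx, hx', map_add, add_mul]
  | tmul z v =>
    induction y using TensorProduct.induction_on with
    | zero => rw [mul_zero, map_zero, mul_zero]
    | add x x' hx hx' => rw [mul_add, map_add, hx, hx', map_add, mul_add]
    | tmul w v' =>
      rw [Algebra.TensorProduct.tmul_mul_tmul, sg_tmul, sg_tmul, sg_tmul,
        Algebra.TensorProduct.tmul_mul_tmul, map_mul]

lemma sg_mp (σ : ℂ ≃ₐ[T.W.K] ℂ) (f : X ⟶ Y) (x : CH T Y) :
    sg (T.W.H X) σ (mp T f x) = mp T f (sg (T.W.H Y) σ x) := (sg_baseChange σ _ x).symm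

lemma leiR_cjg (σ : ℂ ≃ₐ[T.W.K] ℂ) :
    LeiR (cjg σ (hop T X)) (cjg σ (hop T Y)) (cjg σ (hop T (X.prod Y))) := by
  intro a b
  rw [cjg_apply, cjg_apply, cjg_apply, sg_mulC, sg_mp, sg_mp, hop_mul, hop_mp, hop_mp, map_add,
    sg_mulC, sg_mulC, sg_mp, sg_mp, sg_mp, sg_mp, sg_inv, sg_inv]

lemma lei_cjg (σ : ℂ ≃ₐ[T.W.K] ℂ) :
    Lei (X := X) (T := T) fun n => cjg σ (hop T (pw X n)) := fun _ => leiR_cjg σ

lemma cjg_mem_restr (σ : ℂ ≃ₐ[T.W.K] ℂ) :
    (fun i : SubHS T X l => cjg σ i.h) ∈ restr T X l := by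
  refine mem_restr.2 ⟨_, lei_cjg σ, fun i v => ?_⟩
  change i.S.subtype.baseChange ℂ (cjg σ i.h v) = cjg σ (hop T (pw X i.n)) _
  rw [cjg_apply, cjg_apply, sg_baseChange, i.comm, ← sg_baseChange]

/-- **Finitely many of the Hodge substructures of bounded level of the cohomology of the powers
suffice.** -/
theorem exists_exponents {c : ℂ ≃ₐ[T.W.K] ℂ} (hT : PolH T c) (X : 𝒱.Obj) (l : ℕ) :
    ∃ F : Finset (SubHS T X l), F.card ≤ (2 * l + 1) ^ (finrank T.W.K (T.W.H X) ^ 2) ∧
      ∀ j : SubHS T X l, ∃ (β : Type) (_ : Fintype β) (t : β → F)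
        (g : ∀ b, (t b).1.S →ₗ[T.W.K] j.S) (s : ∀ b, j.S →ₗ[T.W.K] (t b).1.S),
        (∀ b, Mor ((t b).1.h) j.h (g b)) ∧ (∀ b, Mor j.h ((t b).1.h) (s b)) ∧
          ∀ v, ∑ b, g b (s b v) = v := by
  have hd : ∀ i : SubHS T X l, ∃ e, Dec ℂ l i.h e := fun i => exists_dec i.lev
  choose Q hQ using exists_pol hT
  obtain ⟨h1, h2⟩ := alg_finite (h := fun i : SubHS T X l => i.h) hd (D := restr T X l)
    (fun x hx y hy => restr_bracket hx hy) cjg_mem_restr
  obtain ⟨F, hF, h3⟩ := exists_finite (c := c) (l := l) (ι := SubHS T X l)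
    (M := fun i => i.S) (h := fun i => i.h)
    (Q := fun i => (Q (pw X i.n)).compl₁₂ i.S.subtype i.S.subtype)
    (fun z hz => fixed_mem z hz) hd
    (fun i => (hQ (pw X i.n)).restrict i.S.injective_subtype i.comm)
  refine ⟨F, hF.trans (h2.trans ?_), h3⟩
  exact Nat.pow_le_pow_right (by omega) (finrank_restr T X l)

end Pool.Agent.Q50.BL
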