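import Pool.Agent.Q50.BL.Abs
import Pool.Agent.Y121.AHS.Conv

/-!
# The Hodge operator on the cohomology with complex coefficients
-/

open CategoryTheory AlgebraicGeometry TensorProduct

universe u

namespace Pool.Agent.Q50.BL

open Module Polynomial
open Pool.Agent.H914 Pool.Agent.H914.VarClass Pool.Agent.H914.VarClass.Obj
  Pool.Agent.H914.WeilCohomology
open Pool.Agent.Y133.Half
open Pool.Agent.Y121.AH

variable {k : Type u} [Field k] {𝒱 : VarClass k} {ops : CycleOps 𝒱} (T : HodgeTheory ops)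
  {X Y Z : 𝒱.Obj}

/-- The cohomology with complex coefficients. -/
abbrev CH (X : 𝒱.Obj) : Type := ℂ ⊗[T.W.K] T.W.H X

/-- The classes of type `(p, q)`. -/
noncomputable def pqC (X : 𝒱.Obj) (p q : ℤ) : Submodule ℂ (CH T X) := T.pq X p q

/-- The pull-back. -/
noncomputable def mp (f : X ⟶ Y) : CH T Y →ₗ[ℂ] CH T X := (T.W.map f).toLinearMap.baseChange ℂ

/-- The push-forward. -/
noncomputable def ps (f : X ⟶ Y) : CH T X →ₗ[ℂ] CH T Y := (T.W.push f).baseChange ℂ

variable {T}

lemma mp_mul (f : X ⟶ Y) (x y : CH T Y) : mp T f (x * y) = mp T f x * mp T f y := by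
  induction x using TensorProduct.induction_on with
  | zero => rw [zero_mul, map_zero, zero_mul]
  | add x x' hx hx' => rw [add_mul, map_add, hx, hx', map_add, add_mul]
  | tmul z v =>
    induction y using TensorProduct.induction_on with
    | zero => rw [mul_zero, map_zero, mul_zero]
    | add x x' hx hx' => rw [mul_add, map_add, hx, hx', map_add, mul_add]
    | tmul w v' =>
      rw [mp, Algebra.TensorProduct.tmul_mul_tmul, LinearMap.baseChange_tmul,
        LinearMap.baseChange_tmul, LinearMap.baseChange_tmul,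
        Algebra.TensorProduct.tmul_mul_tmul]
      congr 1
      exact map_mul (T.W.map f) v v'

lemma mp_tmul (f : X ⟶ Y) (z : ℂ) (v : T.W.H Y) :
    mp T f (z ⊗ₜ[T.W.K] v) = z ⊗ₜ[T.W.K] T.W.map f v := LinearMap.baseChange_tmul _ _ _

lemma ps_tmul (f : X ⟶ Y) (z : ℂ) (v : T.W.H X) :
    ps T f (z ⊗ₜ[T.W.K] v) = z ⊗ₜ[T.W.K] T.W.push f v := LinearMap.baseChange_tmul _ _ _

lemma ch_ind {p : CH T X → Prop}
    (h : ∀ (i : ℕ) (a b : ℤ), a + b = i → ∀ x ∈ pqC T X a b, p x)
    (hadd : ∀ a b, p a → p b → p (a + b)) (h0 : p 0) (x : CH T X) : p x :=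
  pq_ind_nat (T := T) (p := p) h hadd h0 x

lemma pq_mul {a b c d : ℤ} {x y : CH T X} (hx : x ∈ pqC T X a b) (hy : y ∈ pqC T X c d) :
    x * y ∈ pqC T X (a + c) (b + d) := T.dec.mul hx hy

lemma pq_mp (f : X ⟶ Y) {a b : ℤ} {y : CH T Y} (hy : y ∈ pqC T Y a b) :
    mp T f y ∈ pqC T X a b := by
  have h1 : (CW T).map f y ∈ T.pq X a b := T.dec.map f hy
  have h2 : (CW T).map f y = mp T f y := Pool.Agent.Y121.AHS.mapBase_eq (L := ℂ) (T.W.map f) y
  rw [h2] at h1
  exact h1

lemma pq_ps (f : X ⟶ Y) {a b : ℤ} {x : CH T X} (hx : x ∈ pqC T X a b) :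
    ps T f x ∈ pqC T Y (a + Y.dim - X.dim) (b + Y.dim - X.dim) := T.dec.push f hx

lemma pq_gr {i : ℕ} {a b : ℤ} (h : a + b = i) {x : CH T X} (hx : x ∈ pqC T X a b) :
    x ∈ (T.W.gr X i).baseChange ℂ := T.dec.le X h hx

lemma gr_ind {i : ℕ} {p : CH T X → Prop}
    (h : ∀ (a b : ℤ), a + b = i → ∀ x ∈ pqC T X a b, p x)
    (hadd : ∀ a b, p a → p b → p (a + b)) (h0 : p 0) {x : CH T X}
    (hx : x ∈ (T.W.gr X i).baseChange ℂ) : p x := by
  have h1 : (show (CW T).H X from x) ∈
      ⨆ r : {r : ℤ × ℤ // r.1 + r.2 = i}, T.pq X r.1.1 r.1.2 := gr_le_iSup hx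
  exact Submodule.iSup_induction (fun r : {r : ℤ × ℤ // r.1 + r.2 = i} => T.pq X r.1.1 r.1.2)
    (motive := p) h1 (fun r x hx => h _ _ r.2 x hx) h0 hadd

lemma pq_internal (X : 𝒱.Obj) : DirectSum.IsInternal fun r : ℤ × ℤ => pqC T X r.1 r.2 :=
  isInternal T X

lemma pq_indep (X : 𝒱.Obj) : iSupIndep fun r : ℤ × ℤ => pqC T X r.1 r.2 := T.dec.indep X

variable (T)

/-- The multiplication by `p - q` on the classes of type `(p, q)`. -/
noncomputable def hop (X : 𝒱.Obj) : Module.End ℂ (CH T X) :=
  dia (pq_internal X) fun r => ((r.1 - r.2 : ℤ) : ℂ)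

variable {T}

lemma hop_pq {p q : ℤ} {x : CH T X} (hx : x ∈ pqC T X p q) :
    hop T X x = ((p - q : ℤ) : ℂ) • x :=
  dia_apply (pq_internal X) _ (i := (p, q)) hx

lemma hop_mul (x y : CH T X) : hop T X (x * y) = hop T X x * y + x * hop T X y := by
  refine ch_ind (p := fun x => hop T X (x * y) = hop T X x * y + x * hop T X y) ?_ ?_ ?_ x
  · intro _ a b _ x hx
    refine ch_ind (p := fun y => hop T X (x * y) = hop T X x * y + x * hop T X y) ?_ ?_ ?_ y
    · intro _ c d _ y hy
      rw [hop_pq hx, hop_pq hy, hop_pq (pq_mul hx hy), smul_mul_assoc, mul_smul_comm,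
        ← add_smul]
      congr 1
      push_cast
      ring
    · intro y z hy hz; rw [mul_add, map_add, hy, hz, map_add, mul_add, mul_add]; abel
    · rw [mul_zero, map_zero, mul_zero, mul_zero, add_zero]
  · intro x z hx hz; rw [add_mul, map_add, hx, hz, map_add, add_mul, add_mul]; abel
  · rw [zero_mul, map_zero, zero_mul, zero_mul, add_zero]

lemma hop_mp (f : X ⟶ Y) (y : CH T Y) : hop T X (mp T f y) = mp T f (hop T Y y) := by
  refine ch_ind (p := fun y => hop T X (mp T f y) = mp T f (hop T Y y)) ?_ ?_ ?_ y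
  · intro _ a b _ y hy
    rw [hop_pq hy, hop_pq (pq_mp f hy), map_smul]
  · intro y z hy hz; rw [map_add, map_add, hy, hz, map_add, map_add]
  · rw [map_zero, map_zero, map_zero, map_zero]

lemma hop_ps (f : X ⟶ Y) (x : CH T X) : hop T Y (ps T f x) = ps T f (hop T X x) := by
  refine ch_ind (p := fun x => hop T Y (ps T f x) = ps T f (hop T X x)) ?_ ?_ ?_ x
  · intro _ a b _ x hx
    rw [hop_pq hx, hop_pq (pq_ps f hx), map_smul]
    congr 2
    ring
  · intro y z hy hz; rw [map_add, map_add, hy, hz, map_add, map_add]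
  · rw [map_zero, map_zero, map_zero, map_zero]

/-- The Hodge operator respects the degrees. -/
lemma hop_gr {i : ℕ} {x : CH T X} (hx : x ∈ (T.W.gr X i).baseChange ℂ) :
    hop T X x ∈ (T.W.gr X i).baseChange ℂ := by
  refine gr_ind (p := fun x => hop T X x ∈ (T.W.gr X i).baseChange ℂ) ?_ ?_ ?_ hx
  · intro a b hab x hx
    rw [hop_pq hx]
    exact Submodule.smul_mem _ _ (pq_gr hab hx)
  · intro x y hx hy; rw [map_add]; exact Submodule.add_mem _ hx hy
  · rw [map_zero]; exact Submodule.zero_mem _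

/-- The Hodge operator vanishes on the Hodge classes. -/
lemma hop_hodge {c : T.W.H X} (hc : c ∈ (hodgeSys T).C X) : hop T X (1 ⊗ₜ[T.W.K] c) = 0 := by
  have hc' : c ∈ (hodgePred T).sp X := hc
  refine ClassPred.sp_ind (Q := hodgePred T) (q := fun c => hop T X (1 ⊗ₜ[T.W.K] c) = 0)
    ?_ ?_ ?_ hc'
  · intro j c hc
    have h1 : (1 ⊗ₜ[T.W.K] c : CH T X) ∈ pqC T X j j := hc.2
    rw [hop_pq h1, sub_self, Int.cast_zero, zero_smul]
  · rw [tmul_zero, map_zero]
  · intro a b ha hb; rw [tmul_add, map_add, ha, hb, add_zero]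

lemma proj_baseChange_same {i : ℕ} {x : CH T X} (hx : x ∈ (T.W.gr X i).baseChange ℂ) :
    (H914.proj (T.W.isInternal X) i).baseChange ℂ x = x := by
  refine base_induction
    (P := fun x => (H914.proj (T.W.isInternal X) i).baseChange ℂ x = x) ?_ ?_ ?_ hx
  · rw [map_zero]
  · intro x y hx hy; rw [map_add, hx, hy]
  · intro z a ha; rw [LinearMap.baseChange_tmul, proj_same _ ha]

lemma proj_baseChange_ne {i j : ℕ} (hij : i ≠ j) {x : CH T X}
    (hx : x ∈ (T.W.gr X i).baseChange ℂ) :
    (H914.proj (T.W.isInternal X) j).baseChange ℂ x = 0 := by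
  refine base_induction
    (P := fun x => (H914.proj (T.W.isInternal X) j).baseChange ℂ x = 0) ?_ ?_ ?_ hx
  · rw [map_zero]
  · intro x y hx hy; rw [map_add, hx, hy, add_zero]
  · intro z a ha; rw [LinearMap.baseChange_tmul, proj_ne _ ha hij, tmul_zero]

/-- The Hodge operator commutes with the projections. -/
lemma hop_proj (i : ℕ) (x : CH T X) : hop T X ((H914.proj (T.W.isInternal X) i).baseChange ℂ x) =
    (H914.proj (T.W.isInternal X) i).baseChange ℂ (hop T X x) := by
  refine ch_ind (p := fun x => hop T X ((H914.proj (T.W.isInternal X) i).baseChange ℂ x) =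
    (H914.proj (T.W.isInternal X) i).baseChange ℂ (hop T X x)) ?_ ?_ ?_ x
  · intro j a b hab x hx
    have h1 := pq_gr hab hx
    by_cases hij : j = i
    · subst hij
      rw [proj_baseChange_same h1, proj_baseChange_same (hop_gr h1)]
    · rw [proj_baseChange_ne hij h1, proj_baseChange_ne hij (hop_gr h1), map_zero]
  · intro x y hx hy; rw [map_add, map_add, hx, hy, map_add, map_add]
  · rw [map_zero, map_zero, map_zero]

/-- An element is the sum of its components. -/
lemma mem_of_proj {K V : Type*} [Field K] [AddCommGroup V] [Module K V] {gr : ℕ → Submodule K V}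
    (h : DirectSum.IsInternal gr) {S : Submodule K V} {c : V}
    (hc : ∀ i, H914.proj h i c ∈ S) : c ∈ S := by
  obtain ⟨N, hN⟩ : ∃ N, ∀ n ≥ N, c = ∑ i ∈ Finset.range n, H914.proj h i c := by
    clear hc
    refine gr_induction h (p := fun c => ∃ N, ∀ n ≥ N,
      c = ∑ i ∈ Finset.range n, H914.proj h i c) ?_ ?_ c
    · intro j a ha
      refine ⟨j + 1, fun n hn => ?_⟩
      rw [Finset.sum_eq_single j, proj_same _ ha]
      · intro i _ hij; exact proj_ne _ ha (Ne.symm hij)
      · intro h'; exact absurd (Finset.mem_range.2 (by omega)) h'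
    · rintro a b ⟨N, hN⟩ ⟨M, hM⟩
      refine ⟨max N M, fun n hn => ?_⟩
      simp only [map_add]
      rw [Finset.sum_add_distrib, ← hN n (le_trans (le_max_left _ _) hn),
        ← hM n (le_trans (le_max_right _ _) hn)]
  rw [hN N le_rfl]
  exact Submodule.sum_mem _ fun i _ => hc i

/-- A rational class killed by the Hodge operator is a sum of Hodge classes. -/
lemma hodge_of_hop {c : T.W.H X} (hc : hop T X (1 ⊗ₜ[T.W.K] c) = 0) : c ∈ (hodgeSys T).C X := by
  classical
  refine mem_of_proj (T.W.isInternal X) fun i => ?_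
  have h1 : hop T X (1 ⊗ₜ[T.W.K] (H914.proj (T.W.isInternal X) i c)) = 0 := by
    have := hop_proj (T := T) i (1 ⊗ₜ[T.W.K] c)
    rw [hc, map_zero, LinearMap.baseChange_tmul] at this
    exact this
  have h2 : H914.proj (T.W.isInternal X) i c ∈ T.W.gr X i := proj_mem _ _ _
  generalize H914.proj (T.W.isInternal X) i c = d at h1 h2
  have h2' : (1 ⊗ₜ[T.W.K] d : CH T X) ∈ (T.W.gr X i).baseChange ℂ :=
    Submodule.tmul_mem_baseChange_of_mem _ h2
  -- projection to the classes with `p = q`
  set N : Module.End ℂ (CH T X) := dia (pq_internal X) fun r =>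
    if r.1 = r.2 then 0 else (((r.1 - r.2 : ℤ) : ℂ))⁻¹ with hN
  set E : Module.End ℂ (CH T X) := dia (pq_internal X) fun r =>
    if r.1 = r.2 then 1 else 0 with hE
  have h3 : ∀ x : CH T X, N (hop T X x) + E x = x := by
    intro x
    refine ch_ind (p := fun x : CH T X => N (hop T X x) + E x = x) ?_ ?_ ?_ x
    · intro _ a b _ x hx
      rw [hop_pq hx, map_smul, hN, hE, dia_apply (pq_internal X) _ (i := (a, b)) hx,
        dia_apply (pq_internal X) _ (i := (a, b)) hx]
      by_cases hab : a = b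
      · simp [hab]
      · simp only [if_neg hab, zero_smul, add_zero]
        rw [smul_smul, mul_inv_cancel₀, one_smul]
        rw [Ne, Int.cast_eq_zero]; omega
    · intro x y hx hy
      calc N (hop T X (x + y)) + E (x + y) =
            (N (hop T X x) + E x) + (N (hop T X y) + E y) := by
              rw [map_add, map_add, map_add]; abel
        _ = x + y := by rw [hx, hy]
    · rw [map_zero, map_zero, map_zero, add_zero]
  have h5 := h3 (1 ⊗ₜ[T.W.K] d)
  rw [h1, map_zero, zero_add] at h5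
  rcases Nat.even_or_odd' i with ⟨j, rfl | rfl⟩
  · refine Submodule.subset_span ⟨j, h2, ?_⟩
    have h6 : E (1 ⊗ₜ[T.W.K] d) ∈ pqC T X j j := by
      refine gr_ind (p := fun x => E x ∈ pqC T X j j) ?_ ?_ ?_ h2'
      · intro a b hr x hx
        rw [hE, dia_apply (pq_internal X) _ (i := (a, b)) hx]
        by_cases hab : a = b
        · subst hab
          have h3 : a = j := by push_cast at hr; omega
          subst h3
          simpa using hx
        · simp [hab]
      · intro x y hx hy; rw [map_add]; exact Submodule.add_mem _ hx hy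
      · rw [map_zero]; exact Submodule.zero_mem _
    rw [h5] at h6
    exact h6
  · have h6 : E (1 ⊗ₜ[T.W.K] d) = 0 := by
      refine gr_ind (p := fun x => E x = 0) ?_ ?_ ?_ h2'
      · intro a b hr x hx
        rw [hE, dia_apply (pq_internal X) _ (i := (a, b)) hx]
        by_cases hab : a = b
        · exfalso
          subst hab
          push_cast at hr
          omega
        · simp [hab]
      · intro x y hx hy; rw [map_add, hx, hy, add_zero]
      · rw [map_zero]
    rw [h5] at h6
    have h7 : d = 0 := tmul_injective (L := ℂ) d h6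
    rw [h7]
    exact Submodule.zero_mem _

end Pool.Agent.Q50.BL
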