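import Pool.Agent.Q50.BL.Hop

/-!
# Operators which commute with the Hodge operators
-/

open CategoryTheory AlgebraicGeometry TensorProduct

universe u

namespace Pool.Agent.Q50.BL

open Module Polynomial
open Pool.Agent.H914 Pool.Agent.H914.VarClass Pool.Agent.H914.VarClass.Obj
  Pool.Agent.H914.WeilCohomology
open Pool.Agent.Y133.Half
open Pool.Agent.Y121.AH

variable {k : Type u} [Field k] {𝒱 : VarClass k} {ops : CycleOps 𝒱} {T : HodgeTheory ops}
  {X Y Z : 𝒱.Obj}

lemma corrL_bijective (W : WeilCohomology.{u, 0} ops) (X Y : 𝒱.Obj) :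
    Function.Bijective (corrL W X Y) := by
  have hinj : Function.Injective (corrL W X Y) := by
    intro c d h
    rw [← sub_eq_zero]
    apply corr_inj
    have h1 : corrL W X Y (c - d) = 0 := by rw [map_sub, h, sub_self]
    exact h1
  have hdim : Module.finrank W.K (W.H (X.prod Y)) =
      Module.finrank W.K (W.H X →ₗ[W.K] W.H Y) := by
    have e1 := (LinearEquiv.ofBijective _ (W.kunneth X Y)).finrank_eq
    rw [← e1, Module.finrank_tensorProduct, Module.finrank_linearMap]
  exact ⟨hinj, (LinearMap.injective_iff_surjective_of_finrank_eq_finrank hdim).1 hinj⟩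

lemma exists_corr (f : T.W.H X →ₗ[T.W.K] T.W.H Y) : ∃ c, T.W.corr c = f :=
  (corrL_bijective T.W X Y).2 f

/-- The complexification of a correspondence. -/
lemma corr_baseChange (c : T.W.H (X.prod Y)) (x : CH T X) :
    (T.W.corr c).baseChange ℂ x = ps T (snd X Y) (1 ⊗ₜ[T.W.K] c * mp T (fst X Y) x) := by
  induction x using TensorProduct.induction_on with
  | zero => rw [map_zero, map_zero, mul_zero, map_zero]
  | add x y hx hy => rw [map_add, hx, hy, map_add, mul_add, map_add]
  | tmul z v =>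
    rw [LinearMap.baseChange_tmul, mp_tmul, Algebra.TensorProduct.tmul_mul_tmul, ps_tmul, one_mul,
      corr_apply]

/-- The operator given by a class with complex coefficients. -/
noncomputable def corC (T : HodgeTheory ops) (X Y : 𝒱.Obj) (c : CH T (X.prod Y)) (x : CH T X) :
    CH T Y := ps T (snd X Y) (c * mp T (fst X Y) x)

lemma corC_inj {c : CH T (X.prod Y)} (h : ∀ x, corC T X Y c x = 0) : c = 0 := by
  have h1 : (CW T).corr (show (CW T).H (X.prod Y) from c) = 0 := by
    apply LinearMap.ext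
    intro x
    rw [corr_apply]
    have h2 : (CW T).map (fst X Y) x = mp T (fst X Y) x :=
      Pool.Agent.Y121.AHS.mapBase_eq (L := ℂ) (T.W.map (fst X Y)) x
    rw [h2]
    exact h x
  exact corr_inj h1

/-- The operators which commute with the Hodge operators are given by Hodge classes. -/
theorem op_of_mor {f : T.W.H X →ₗ[T.W.K] T.W.H Y} (hf : Mor (hop T X) (hop T Y) f) :
    f ∈ (hodgeSys T).Op X Y := by
  obtain ⟨c, rfl⟩ := exists_corr f
  refine Sys.Op.corr (hodge_of_hop (corC_inj fun x => ?_))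
  have h1 := hf x
  rw [corr_baseChange, corr_baseChange, hop_ps, hop_mul, hop_mp, map_add] at h1
  exact (add_eq_right.1 h1.symm)

/-- The operators given by Hodge classes commute with the Hodge operators. -/
theorem mor_of_op {f : T.W.H X →ₗ[T.W.K] T.W.H Y} (hf : f ∈ (hodgeSys T).Op X Y) :
    Mor (hop T X) (hop T Y) f := by
  obtain ⟨c, hc, rfl⟩ := Sys.mem_Op.1 hf
  intro x
  rw [corr_baseChange, corr_baseChange, hop_ps, hop_mul, hop_mp, hop_hodge hc, zero_mul, zero_add]

lemma aeval_hop_pq {a b : ℤ} {x : CH T X} (hx : x ∈ pqC T X a b) (p : ℂ[X]) :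
    aeval (hop T X) p x = p.eval ((a - b : ℤ) : ℂ) • x :=
  aeval_eig (hop_pq hx) p

/-- The Hodge level of `X` is at most `l`. -/
def Lev (T : HodgeTheory ops) (X : 𝒱.Obj) (l : ℕ) : Prop :=
  ∀ p q : ℤ, (l : ℤ) < |p - q| → pqC T X p q = ⊥

lemma Lev.nod {l : ℕ} (h : Lev T X l) : aeval (hop T X) (nod ℂ l) = 0 := by
  apply LinearMap.ext
  intro x
  rw [LinearMap.zero_apply]
  refine ch_ind (p := fun x => aeval (hop T X) (BL.nod ℂ l) x = 0) ?_ ?_ ?_ x
  · intro _ a b _ x hx
    by_cases hab : (l : ℤ) < |a - b|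
    · rw [h a b hab, Submodule.mem_bot] at hx
      rw [hx, map_zero]
    · rw [aeval_hop_pq hx, BL.nod, Lagrange.eval_nodal_at_node, zero_smul]
      rw [Finset.mem_Icc]
      rw [not_lt, abs_le] at hab
      exact hab
  · intro x y hx hy; rw [map_add, hx, hy, add_zero]
  · rw [map_zero]

/-- Every variety has finite Hodge level. -/
lemma exists_lev (T : HodgeTheory ops) (X : 𝒱.Obj) : ∃ l, Lev T X l := by
  have h1 : {r : ℤ × ℤ | pqC T X r.1 r.2 ≠ ⊥}.Finite :=
    WellFoundedGT.finite_ne_bot_of_iSupIndep (pq_indep X)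
  refine ⟨∑ r ∈ h1.toFinset, (r.1 - r.2).natAbs, fun p q hpq => ?_⟩
  by_contra h2
  have h3 : (p, q) ∈ h1.toFinset := by rw [Set.Finite.mem_toFinset]; exact h2
  have h4 : (p - q).natAbs ≤ ∑ r ∈ h1.toFinset, (r.1 - r.2).natAbs :=
    Finset.single_le_sum (f := fun r : ℤ × ℤ => (r.1 - r.2).natAbs)
      (fun _ _ => Nat.zero_le _) h3
  rw [Int.abs_eq_natAbs] at hpq
  omega

lemma nod_dvd {l m : ℕ} (h : l ≤ m) : nod ℂ l ∣ nod ℂ m := by
  rw [nod, nod, Lagrange.nodal_eq, Lagrange.nodal_eq]
  apply Finset.prod_dvd_prod_of_subset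
  intro x hx
  rw [Finset.mem_Icc] at *
  omega

end Pool.Agent.Q50.BL
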