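import Mathlib

/-!
# Finiteness of algebras generated by a finite-dimensional Lie algebra spanned by integral elements

If the elements `x i`, `i < r`, span a space which is closed under commutators and each `x i` is
integral of degree at most `d`, then the algebra generated by the `x i` is spanned by the ordered
monomials with exponents less than `d`.
-/

namespace Pool.Agent.Q50.BL

open Finset

variable {K E : Type*} [Field K] [Ring E] [Algebra K E] {r : ℕ}

/-- The product of a word in the elements `x i`. -/
def wd (x : Fin r → E) (s : List (Fin r)) : E := (s.map x).prod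

/-- The span of the products of at most `n` of the elements `x i`. -/
def lev (K : Type*) [Field K] [Algebra K E] (x : Fin r → E) (n : ℕ) : Submodule K E :=
  Submodule.span K {y | ∃ s : List (Fin r), s.length ≤ n ∧ wd x s = y}

/-- The ordered monomial. -/
def mon (x : Fin r → E) (a : Fin r → ℕ) : E := (List.ofFn fun i => x i ^ a i).prod

variable {x : Fin r → E}

lemma wd_mem {n : ℕ} {s : List (Fin r)} (h : s.length ≤ n) : wd x s ∈ lev K x n :=
  Submodule.subset_span ⟨s, h, rfl⟩

lemma lev_mono {m n : ℕ} (h : m ≤ n) : lev K x m ≤ lev K x n :=
  Submodule.span_mono fun _ ⟨s, hs, e⟩ => ⟨s, hs.trans h, e⟩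

lemma mul_lev {i : Fin r} {n : ℕ} {y : E} (hy : y ∈ lev K x n) : x i * y ∈ lev K x (n + 1) := by
  induction hy using Submodule.span_induction with
  | mem y hy =>
    obtain ⟨s, hs, rfl⟩ := hy
    exact Submodule.subset_span ⟨i :: s, by simpa using hs, by simp [wd]⟩
  | zero => rw [mul_zero]; exact Submodule.zero_mem _
  | add y z _ _ hy hz => rw [mul_add]; exact Submodule.add_mem _ hy hz
  | smul c y _ hy => rw [mul_smul_comm]; exact Submodule.smul_mem _ _ hy

lemma span_mul_lev {n : ℕ} {y z : E} (hz : z ∈ Submodule.span K (Set.range x))
    (hy : y ∈ lev K x n) : z * y ∈ lev K x (n + 1) := by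
  induction hz using Submodule.span_induction with
  | mem z hz => obtain ⟨i, rfl⟩ := hz; exact mul_lev hy
  | zero => rw [zero_mul]; exact Submodule.zero_mem _
  | add a b _ _ ha hb => rw [add_mul]; exact Submodule.add_mem _ ha hb
  | smul c a _ ha => rw [smul_mul_assoc]; exact Submodule.smul_mem _ _ ha

/-- Reordering a word changes it by shorter words. -/
lemma perm_sub (hbr : ∀ i j, x i * x j - x j * x i ∈ Submodule.span K (Set.range x))
    {s t : List (Fin r)} (h : s.Perm t) : wd x s - wd x t ∈ lev K x (s.length - 1) := by
  induction h with
  | nil => simp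
  | cons a h ih =>
    rename_i l₁ l₂
    rw [wd, wd, List.map_cons, List.map_cons, List.prod_cons, List.prod_cons, ← mul_sub]
    rcases Nat.eq_zero_or_pos l₁.length with h0 | h0
    · have h1 : l₁ = [] := List.length_eq_zero_iff.1 h0
      subst h1
      have h2 : l₂ = [] := List.Perm.nil_eq h ▸ rfl
      subst h2
      simp
    · have := mul_lev (i := a) ih
      rw [Nat.sub_add_cancel h0] at this
      rw [List.length_cons, Nat.add_sub_cancel]
      exact this
  | swap a b l =>
    have h1 : wd x (b :: a :: l) - wd x (a :: b :: l) = (x b * x a - x a * x b) * wd x l := by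
      simp [wd, sub_mul, mul_assoc]
    rw [h1]
    exact span_mul_lev (hbr b a) (wd_mem le_rfl)
  | trans h1 h2 ih1 ih2 =>
    have := Submodule.add_mem _ ih1 (h1.length_eq ▸ ih2)
    rwa [sub_add_sub_cancel] at this

lemma wd_append (s t : List (Fin r)) : wd x (s ++ t) = wd x s * wd x t := by
  simp [wd]

lemma wd_replicate (n : ℕ) (i : Fin r) : wd x (List.replicate n i) = x i ^ n := by
  simp [wd]

/-- The ordered word. -/
lemma wd_sorted (a : Fin r → ℕ) :
    wd x (List.ofFn fun i => List.replicate (a i) i).flatten = mon x a := by
  have key : ∀ l : List (Fin r), wd x (l.map fun i => List.replicate (a i) i).flatten =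
      (l.map fun i => x i ^ a i).prod := by
    intro l
    induction l with
    | nil => simp [wd]
    | cons i l ih =>
      rw [List.map_cons, List.flatten_cons, wd_append, wd_replicate, ih, List.map_cons,
        List.prod_cons]
  rw [mon, List.ofFn_eq_map, List.ofFn_eq_map, key]

lemma perm_sorted (s : List (Fin r)) :
    s.Perm (List.ofFn fun i => List.replicate (s.count i) i).flatten := by
  rw [List.perm_iff_count]
  intro j
  rw [List.count_flatten, List.ofFn_eq_map, List.map_map]
  have h1 : ((List.finRange r).map (List.count j ∘ fun i => List.replicate (s.count i) i)) =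
      (List.finRange r).map fun i => if i = j then s.count j else 0 := by
    apply List.map_congr_left
    intro i _
    simp only [Function.comp_apply, List.count_replicate]
    by_cases h : i = j
    · subst h; simp
    · simp [h]
  rw [h1, ← List.ofFn_eq_map, List.sum_ofFn]
  simp

lemma perm_replicate {s : List (Fin r)} {i : Fin r} {d : ℕ} (h : d ≤ s.count i) :
    ∃ t : List (Fin r), s.Perm (List.replicate d i ++ t) := by
  obtain ⟨t, ht⟩ := (List.replicate_sublist_iff.2 h).exists_perm_append
  exact ⟨t, ht⟩

/-- **All words are combinations of ordered monomials with small exponents.** -/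
theorem lev_le_span {d : ℕ}
    (hbr : ∀ i j, x i * x j - x j * x i ∈ Submodule.span K (Set.range x))
    (hint : ∀ i, x i ^ d ∈ Submodule.span K ((fun j => x i ^ j) '' Set.Iio d)) (n : ℕ) :
    lev K x n ≤ Submodule.span K (Set.range fun a : Fin r → Fin d => mon x fun i => a i) := by
  induction n with
  | zero =>
    apply Submodule.span_le.2
    rintro _ ⟨s, hs, rfl⟩
    have h1 : s = [] := List.length_eq_zero_iff.1 (Nat.le_zero.1 hs)
    subst h1
    by_cases hd : 0 < d
    · refine Submodule.subset_span ⟨fun _ => ⟨0, hd⟩, ?_⟩
      simp [mon, wd]
    · obtain rfl : d = 0 := by omega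
      rcases Nat.eq_zero_or_pos r with hr | hr
      · subst hr
        refine Submodule.subset_span ⟨fun i => i.elim0, ?_⟩
        simp [mon, wd]
      · have h2 := hint ⟨0, hr⟩
        simp only [pow_zero] at h2
        have h3 : (Set.Iio 0 : Set ℕ) = ∅ := by ext; simp
        rw [h3, Set.image_empty, Submodule.span_empty, Submodule.mem_bot] at h2
        have h4 : wd x [] = (0 : E) := by simp [wd, h2]
        rw [SetLike.mem_coe, h4]
        exact Submodule.zero_mem _
  | succ n ih =>
    apply Submodule.span_le.2
    rintro _ ⟨s, hs, rfl⟩
    rw [SetLike.mem_coe]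
    rcases Nat.lt_or_ge s.length (n + 1) with h | h
    · exact ih (wd_mem (by omega))
    have hlen : s.length = n + 1 := le_antisymm hs h
    by_cases hc : ∃ i, d ≤ s.count i
    · obtain ⟨i, hi⟩ := hc
      obtain ⟨t, ht⟩ := perm_replicate hi
      have h1 := perm_sub hbr ht
      rw [hlen, Nat.add_sub_cancel] at h1
      have h2 : wd x (List.replicate d i ++ t) ∈ lev K x n := by
        rw [wd_append, wd_replicate]
        have hlt : d + t.length = n + 1 := by
          have := ht.length_eq
          rw [List.length_append, List.length_replicate] at this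
          omega
        have key : ∀ y ∈ Submodule.span K ((fun j => x i ^ j) '' Set.Iio d),
            y * wd x t ∈ lev K x n := by
          intro y hy
          induction hy using Submodule.span_induction with
          | mem y hy =>
            obtain ⟨j, hj, rfl⟩ := hy
            change x i ^ j * wd x t ∈ _
            rw [← wd_replicate, ← wd_append]
            apply wd_mem
            rw [List.length_append, List.length_replicate]
            have : j < d := hj
            omega
          | zero => rw [zero_mul]; exact Submodule.zero_mem _
          | add a b _ _ ha hb => rw [add_mul]; exact Submodule.add_mem _ ha hb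
          | smul c a _ ha => rw [smul_mul_assoc]; exact Submodule.smul_mem _ _ ha
        exact key _ (hint i)
      have h3 := Submodule.add_mem _ h1 h2
      rw [sub_add_cancel] at h3
      exact ih h3
    · push Not at hc
      have h1 := perm_sub hbr (perm_sorted s)
      rw [hlen, Nat.add_sub_cancel, wd_sorted] at h1
      have h2 : mon x (fun i => s.count i) ∈
          Submodule.span K (Set.range fun a : Fin r → Fin d => mon x fun i => a i) :=
        Submodule.subset_span ⟨fun i => ⟨s.count i, hc i⟩, rfl⟩
      have h3 := Submodule.add_mem _ (ih h1) h2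
      rwa [sub_add_cancel] at h3

/-- **The algebra generated by the `x i` is spanned by the ordered monomials with small
exponents.** -/
theorem adjoin_le_span {d : ℕ}
    (hbr : ∀ i j, x i * x j - x j * x i ∈ Submodule.span K (Set.range x))
    (hint : ∀ i, x i ^ d ∈ Submodule.span K ((fun j => x i ^ j) '' Set.Iio d)) :
    Subalgebra.toSubmodule (Algebra.adjoin K (Set.range x)) ≤
      Submodule.span K (Set.range fun a : Fin r → Fin d => mon x fun i => a i) := by
  rw [Algebra.adjoin_eq_span]
  apply Submodule.span_le.2
  intro y hy
  obtain ⟨l, hl, rfl⟩ := Submonoid.exists_list_of_mem_closure hy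
  have h1 : ∃ s : List (Fin r), s.map x = l := by
    clear hy
    induction l with
    | nil => exact ⟨[], rfl⟩
    | cons a l ih =>
      obtain ⟨s, rfl⟩ := ih fun y hy => hl y (List.mem_cons_of_mem _ hy)
      obtain ⟨i, rfl⟩ := hl a List.mem_cons_self
      exact ⟨i :: s, rfl⟩
  obtain ⟨s, rfl⟩ := h1
  exact lev_le_span hbr hint s.length (wd_mem le_rfl)

/-- **The algebra generated by the `x i` is finite-dimensional.** -/
theorem finite_adjoin {d : ℕ}
    (hbr : ∀ i j, x i * x j - x j * x i ∈ Submodule.span K (Set.range x))
    (hint : ∀ i, x i ^ d ∈ Submodule.span K ((fun j => x i ^ j) '' Set.Iio d)) :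
    Module.Finite K (Algebra.adjoin K (Set.range x)) ∧
      Module.finrank K (Algebra.adjoin K (Set.range x)) ≤ d ^ r := by
  have h1 := adjoin_le_span hbr hint
  have h2 : Module.Finite K
      (Submodule.span K (Set.range fun a : Fin r → Fin d => mon x fun i => a i)) :=
    Module.Finite.span_of_finite K (Set.finite_range _)
  have h3 : Module.Finite K (Subalgebra.toSubmodule (Algebra.adjoin K (Set.range x))) :=
    Submodule.finiteDimensional_of_le h1
  refine ⟨h3, ?_⟩
  have h4 := Submodule.finrank_mono h1
  have h5 := finrank_range_le_card (R := K) (fun a : Fin r → Fin d => mon x fun i => a i)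
  rw [Set.finrank, Fintype.card_fun, Fintype.card_fin, Fintype.card_fin] at h5
  exact h4.trans h5

end Pool.Agent.Q50.BL
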