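import Pool.Agent.Q50.BL.Conj

/-!
# The action of the automorphisms of the complex numbers on the complexification of a space
-/

namespace Pool.Agent.Q50.BL

open TensorProduct Polynomial Module

variable {K : Type*} [Field K] [Algebra K ℂ] {V V' V'' : Type*} [AddCommGroup V] [Module K V]
  [AddCommGroup V'] [Module K V'] [AddCommGroup V''] [Module K V'']

/-- The semilinear action of an automorphism of the complex numbers. -/
noncomputable def sg (V : Type*) [AddCommGroup V] [Module K V] (σ : ℂ ≃ₐ[K] ℂ) :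
    ℂ ⊗[K] V →ₗ[K] ℂ ⊗[K] V :=
  LinearMap.rTensor V σ.toLinearMap

lemma sg_tmul (σ : ℂ ≃ₐ[K] ℂ) (z : ℂ) (v : V) : sg V σ (z ⊗ₜ[K] v) = σ z ⊗ₜ[K] v :=
  LinearMap.rTensor_tmul _ _ _ _

lemma sg_smul (σ : ℂ ≃ₐ[K] ℂ) (z : ℂ) (x : ℂ ⊗[K] V) : sg V σ (z • x) = σ z • sg V σ x := by
  induction x using TensorProduct.induction_on with
  | zero => simp
  | add x y hx hy => rw [smul_add, map_add, hx, hy, map_add, smul_add]
  | tmul w v => rw [smul_tmul', sg_tmul, sg_tmul, smul_tmul', smul_eq_mul, smul_eq_mul, map_mul]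

lemma sg_mul (σ τ : ℂ ≃ₐ[K] ℂ) (x : ℂ ⊗[K] V) : sg V (σ * τ) x = sg V σ (sg V τ x) := by
  induction x using TensorProduct.induction_on with
  | zero => simp
  | add x y hx hy => rw [map_add, hx, hy, map_add, map_add]
  | tmul w v => rw [sg_tmul, sg_tmul, sg_tmul]; rfl

lemma sg_one (x : ℂ ⊗[K] V) : sg V (1 : ℂ ≃ₐ[K] ℂ) x = x := by
  induction x using TensorProduct.induction_on with
  | zero => simp
  | add x y hx hy => rw [map_add, hx, hy]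
  | tmul w v => rw [sg_tmul]; rfl

lemma sg_inv (σ : ℂ ≃ₐ[K] ℂ) (x : ℂ ⊗[K] V) : sg V σ (sg V σ⁻¹ x) = x := by
  rw [← sg_mul, mul_inv_cancel, sg_one]

lemma inv_sg (σ : ℂ ≃ₐ[K] ℂ) (x : ℂ ⊗[K] V) : sg V σ⁻¹ (sg V σ x) = x := by
  rw [← sg_mul, inv_mul_cancel, sg_one]

lemma sg_baseChange (σ : ℂ ≃ₐ[K] ℂ) (f : V →ₗ[K] V') (x : ℂ ⊗[K] V) :
    f.baseChange ℂ (sg V σ x) = sg V' σ (f.baseChange ℂ x) := by
  induction x using TensorProduct.induction_on with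
  | zero => simp
  | add x y hx hy => rw [map_add, map_add, hx, hy, map_add, map_add]
  | tmul w v => rw [sg_tmul, LinearMap.baseChange_tmul, LinearMap.baseChange_tmul, sg_tmul]

/-- The conjugate of a linear map. -/
noncomputable def cjg (σ : ℂ ≃ₐ[K] ℂ) (f : ℂ ⊗[K] V →ₗ[ℂ] ℂ ⊗[K] V') :
    ℂ ⊗[K] V →ₗ[ℂ] ℂ ⊗[K] V' where
  toFun x := sg V' σ (f (sg V σ⁻¹ x))
  map_add' x y := by rw [map_add, map_add, map_add]
  map_smul' z x := by
    rw [sg_smul, map_smul, sg_smul, RingHom.id_apply]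
    congr 1
    exact AlgEquiv.apply_symm_apply σ z

lemma cjg_apply (σ : ℂ ≃ₐ[K] ℂ) (f : ℂ ⊗[K] V →ₗ[ℂ] ℂ ⊗[K] V') (x : ℂ ⊗[K] V) :
    cjg σ f x = sg V' σ (f (sg V σ⁻¹ x)) := rfl

lemma cjg_comp (σ : ℂ ≃ₐ[K] ℂ) (f : ℂ ⊗[K] V →ₗ[ℂ] ℂ ⊗[K] V')
    (g : ℂ ⊗[K] V' →ₗ[ℂ] ℂ ⊗[K] V'') : cjg σ (g ∘ₗ f) = cjg σ g ∘ₗ cjg σ f := by
  apply LinearMap.ext
  intro x
  rw [LinearMap.comp_apply, cjg_apply, cjg_apply, cjg_apply, inv_sg, LinearMap.comp_apply]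

lemma cjg_mul (σ : ℂ ≃ₐ[K] ℂ) (f g : Module.End ℂ (ℂ ⊗[K] V)) :
    cjg σ (f * g) = cjg σ f * cjg σ g := cjg_comp σ g f

lemma cjg_one (σ : ℂ ≃ₐ[K] ℂ) : cjg σ (1 : Module.End ℂ (ℂ ⊗[K] V)) = 1 := by
  apply LinearMap.ext
  intro x
  rw [cjg_apply, Module.End.one_apply, sg_inv, Module.End.one_apply]

lemma cjg_add (σ : ℂ ≃ₐ[K] ℂ) (f g : ℂ ⊗[K] V →ₗ[ℂ] ℂ ⊗[K] V') :
    cjg σ (f + g) = cjg σ f + cjg σ g := by
  apply LinearMap.ext
  intro x
  rw [cjg_apply, LinearMap.add_apply, map_add, LinearMap.add_apply, cjg_apply, cjg_apply]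

lemma cjg_sub (σ : ℂ ≃ₐ[K] ℂ) (f g : ℂ ⊗[K] V →ₗ[ℂ] ℂ ⊗[K] V') :
    cjg σ (f - g) = cjg σ f - cjg σ g := by
  apply LinearMap.ext
  intro x
  rw [cjg_apply, LinearMap.sub_apply, map_sub, LinearMap.sub_apply, cjg_apply, cjg_apply]

lemma cjg_zero (σ : ℂ ≃ₐ[K] ℂ) : cjg σ (0 : ℂ ⊗[K] V →ₗ[ℂ] ℂ ⊗[K] V') = 0 := by
  apply LinearMap.ext
  intro x
  rw [cjg_apply, LinearMap.zero_apply, map_zero, LinearMap.zero_apply]

lemma cjg_smul (σ : ℂ ≃ₐ[K] ℂ) (z : ℂ) (f : ℂ ⊗[K] V →ₗ[ℂ] ℂ ⊗[K] V') :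
    cjg σ (z • f) = σ z • cjg σ f := by
  apply LinearMap.ext
  intro x
  rw [cjg_apply, LinearMap.smul_apply, sg_smul, LinearMap.smul_apply, cjg_apply]

lemma cjg_cjg (σ τ : ℂ ≃ₐ[K] ℂ) (f : ℂ ⊗[K] V →ₗ[ℂ] ℂ ⊗[K] V') :
    cjg σ (cjg τ f) = cjg (σ * τ) f := by
  apply LinearMap.ext
  intro x
  rw [cjg_apply, cjg_apply, cjg_apply, sg_mul, mul_inv_rev, sg_mul]

lemma cjg_baseChange (σ : ℂ ≃ₐ[K] ℂ) (f : V →ₗ[K] V') :
    cjg σ (f.baseChange ℂ) = f.baseChange ℂ := by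
  apply LinearMap.ext
  intro x
  rw [cjg_apply, sg_baseChange, sg_inv]

/-- The vectors that are fixed by all automorphisms are rational. -/
lemma exists_rat (hK : ∀ z : ℂ, (∀ σ : ℂ ≃ₐ[K] ℂ, σ z = z) → ∃ r : K, algebraMap K ℂ r = z)
    (x : ℂ ⊗[K] V) (hx : ∀ σ : ℂ ≃ₐ[K] ℂ, sg V σ x = x) : ∃ v : V, (1 : ℂ) ⊗ₜ[K] v = x := by
  let b := Basis.ofVectorSpace K V
  have h1 : ∀ (σ : ℂ ≃ₐ[K] ℂ) (x : ℂ ⊗[K] V) i,
      (b.baseChange ℂ).repr (sg V σ x) i = σ ((b.baseChange ℂ).repr x i) := by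
    intro σ x i
    induction x using TensorProduct.induction_on with
    | zero => simp
    | add x y hx hy => rw [map_add, map_add, Finsupp.add_apply, hx, hy, map_add,
        Finsupp.add_apply, map_add]
    | tmul w v =>
      rw [sg_tmul, Basis.baseChange_repr_tmul, Basis.baseChange_repr_tmul, Algebra.smul_def,
        Algebra.smul_def, map_mul, AlgEquiv.commutes]
  have h2 : ∀ i, ∃ r : K, algebraMap K ℂ r = (b.baseChange ℂ).repr x i := fun i =>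
    hK _ fun σ => by rw [← h1, hx]
  choose r hr using h2
  refine ⟨∑ i ∈ ((b.baseChange ℂ).repr x).support, r i • b i, ?_⟩
  rw [tmul_sum]
  conv_rhs => rw [← (b.baseChange ℂ).linearCombination_repr x, Finsupp.linearCombination_apply,
    Finsupp.sum]
  refine Finset.sum_congr rfl fun i _ => ?_
  rw [Basis.baseChange_apply, ← hr, ← TensorProduct.smul_tmul, smul_tmul', Algebra.smul_def,
    smul_eq_mul]

lemma one_tmul_inj {v w : V} (h : (1 : ℂ) ⊗ₜ[K] v = 1 ⊗ₜ[K] w) : v = w := by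
  let b := Basis.ofVectorSpace K V
  apply b.repr.injective
  ext i
  have h1 := congrArg (fun x => (b.baseChange ℂ).repr x i) h
  simp only [Basis.baseChange_repr_tmul] at h1
  rw [← algebraMap_smul ℂ, ← algebraMap_smul ℂ (b.repr w i), smul_eq_mul, smul_eq_mul, mul_one,
    mul_one] at h1
  exact (algebraMap K ℂ).injective h1

/-- The linear maps that commute with all automorphisms are rational. -/
lemma exists_rat_map
    (hK : ∀ z : ℂ, (∀ σ : ℂ ≃ₐ[K] ℂ, σ z = z) → ∃ r : K, algebraMap K ℂ r = z)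
    (f : ℂ ⊗[K] V →ₗ[ℂ] ℂ ⊗[K] V') (hf : ∀ (σ : ℂ ≃ₐ[K] ℂ) x, f (sg V σ x) = sg V' σ (f x)) :
    ∃ g : V →ₗ[K] V', g.baseChange ℂ = f := by
  have h1 : ∀ v : V, ∃ w : V', (1 : ℂ) ⊗ₜ[K] w = f (1 ⊗ₜ[K] v) := by
    intro v
    refine exists_rat hK _ fun σ => ?_
    rw [← hf, sg_tmul, map_one]
  choose g hg using h1
  refine ⟨⟨⟨g, fun v w => ?_⟩, fun c v => ?_⟩, ?_⟩
  · apply one_tmul_inj (K := K)
    rw [hg, tmul_add, map_add, tmul_add, hg, hg]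
  · apply one_tmul_inj (K := K)
    rw [RingHom.id_apply]
    change (1 : ℂ) ⊗ₜ[K] g (c • v) = 1 ⊗ₜ[K] (c • g v)
    rw [hg, tmul_smul, tmul_smul, ← algebraMap_smul ℂ c, map_smul, hg, algebraMap_smul]
  · apply LinearMap.ext
    intro x
    induction x using TensorProduct.induction_on with
    | zero => rw [map_zero, map_zero]
    | add x y hx hy => rw [map_add, map_add, hx, hy]
    | tmul z v =>
      rw [LinearMap.baseChange_tmul]
      change z ⊗ₜ[K] g v = _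
      have h2 : ∀ u : V', z ⊗ₜ[K] u = z • ((1 : ℂ) ⊗ₜ[K] u) := fun u => by
        rw [smul_tmul', smul_eq_mul, mul_one]
      have h3 : z ⊗ₜ[K] v = z • ((1 : ℂ) ⊗ₜ[K] v) := by rw [smul_tmul', smul_eq_mul, mul_one]
      rw [h2, hg, h3, map_smul]

section Form

variable (Q : LinearMap.BilinForm K V)

/-- The complexification of a bilinear form. -/
noncomputable abbrev QC : LinearMap.BilinForm ℂ (ℂ ⊗[K] V) := LinearMap.BilinForm.baseChange ℂ Q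

lemma QC_tmul (z w : ℂ) (v v' : V) :
    QC Q (z ⊗ₜ[K] v) (w ⊗ₜ[K] v') = algebraMap K ℂ (Q v v') * (z * w) := by
  rw [QC, LinearMap.BilinForm.baseChange_tmul, Algebra.smul_def]

lemma QC_sg (σ : ℂ ≃ₐ[K] ℂ) (x y : ℂ ⊗[K] V) : QC Q (sg V σ x) (sg V σ y) = σ (QC Q x y) := by
  induction x using TensorProduct.induction_on with
  | zero => simp
  | add x x' hx hx' => rw [map_add, map_add, LinearMap.add_apply, hx, hx', map_add,
      LinearMap.add_apply, map_add]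
  | tmul z v =>
    induction y using TensorProduct.induction_on with
    | zero => simp
    | add y y' hy hy' => rw [map_add, map_add, hy, hy', map_add, map_add]
    | tmul w v' => rw [sg_tmul, sg_tmul, QC_tmul, QC_tmul, map_mul, map_mul, AlgEquiv.commutes]

end Form

end Pool.Agent.Q50.BL
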